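import Mathlib

/-!
# Mahler measure of integer polynomials in several variables: definitions
-/

namespace Pool.Agent.Lib.MP_7ab245_nt.NV

open MeasureTheory Filter Topology

/-- The unit cube `(0, 1]ⁿ`. -/
def cube (n : ℕ) : Set (Fin n → ℝ) := Set.univ.pi fun _ => Set.Ioc (0 : ℝ) 1

/-- The value `F (e(θ₁), ..., e(θₙ))`, `e(t) = exp (2 π i t)`. -/
noncomputable def val {n : ℕ} (F : MvPolynomial (Fin n) ℤ) (θ : Fin n → ℝ) : ℂ :=
  MvPolynomial.aeval (fun j => Complex.exp (2 * Real.pi * θ j * Complex.I)) F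

/-- The logarithmic Mahler measure `∫ log |F|` over the torus. -/
noncomputable def logM {n : ℕ} (F : MvPolynomial (Fin n) ℤ) : ℝ :=
  ∫ θ in cube n, Real.log ‖val F θ‖

/-- The mean of `log⁺ |F|` over the torus. -/
noncomputable def ell {n : ℕ} (F : MvPolynomial (Fin n) ℤ) : ℝ :=
  ∫ θ in cube n, max 0 (Real.log ‖val F θ‖)

/-- The specialisation `x_i ↦ X ^ (a ^ i)`. -/
noncomputable def spec {n : ℕ} (a : ℕ) (F : MvPolynomial (Fin n) ℤ) : Polynomial ℤ :=
  MvPolynomial.aeval (fun i : Fin n => (Polynomial.X : Polynomial ℤ) ^ (a ^ (i : ℕ))) F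

end Pool.Agent.Lib.MP_7ab245_nt.NV
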