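import Pool.Agent.Lib.MP_7ab245_nt.LogVar.Monomial3

/-!
# The lower bound in terms of the number of terms and the mean of `log⁺ |f|`
-/

set_option autoImplicit false

open MeasureTheory Real Finset

namespace Pool.Agent.Lib.MP_7ab245_nt.NV

open Pool.Agent.Lib.MP_7ab245_nt.Mono Pool.Agent.Lib.MP_7ab245_nt.LogVar

/-- pointwise bound for `(log h)^2` -/
theorem log_sq_le3 (κ : ℕ) (hκ : 1 ≤ κ) (h A : ℝ) (hh0 : 0 < h) (hhA : h ≤ A) (hA : 1 ≤ A)
    (u0 : ℝ) (hu0 : 0 ≤ u0) :
    Real.log h ^ 2 ≤ Real.log A * max (Real.log h) 0 +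
      u0 * (max (Real.log h) 0 - Real.log h) +
      (2 * κ * u0 + 8 * κ ^ 2) * Real.exp (-u0 / (2 * κ)) * h ^ (-(1 / (2 * κ : ℝ))) := by
  have hκ0 : (0 : ℝ) < κ := by exact_mod_cast hκ
  have hlA : 0 ≤ Real.log A := Real.log_nonneg hA
  have hpow : 0 < h ^ (-(1 / (2 * κ : ℝ))) := Real.rpow_pos_of_pos hh0 _
  have h4 : 0 ≤ (2 * κ * u0 + 8 * κ ^ 2) * Real.exp (-u0 / (2 * κ)) *
      h ^ (-(1 / (2 * κ : ℝ))) := by positivity
  rcases le_total 1 h with h1 | h1
  · have h0 : 0 ≤ Real.log h := Real.log_nonneg h1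
    rw [max_eq_left h0, sub_self, mul_zero, add_zero]
    have h2 : Real.log h ≤ Real.log A := Real.log_le_log hh0 hhA
    have h3 : Real.log h ^ 2 ≤ Real.log A * Real.log h := by
      rw [sq]; exact mul_le_mul_of_nonneg_right h2 h0
    linarith
  · have h5 := log_sq_le κ hκ h 1 hh0 h1 le_rfl u0 hu0
    rw [Real.log_one] at h5
    have h6 : 0 ≤ Real.log A * max (Real.log h) 0 := mul_nonneg hlA (le_max_right _ _)
    linarith

/-- the bound for the mean square of `log |f|` -/
theorem var_bound3 {ι : Type} [Fintype ι] (κ : ℕ) (hκ : 1 ≤ κ) (hcard : Fintype.card ι ≤ κ)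
    (c : ι → ℂ) (e : ι → ℤ) (he : Function.Injective e) (m : ι) (hm : 1 ≤ ‖c m‖)
    (hpos : 0 ≤ ∫ θ, Real.log (hh c e θ) ∂mu) :
    ∫ θ, Real.log (hh c e θ) ^ 2 ∂mu ≤
      (Real.log (∑ j, ‖c j‖) + 4 * κ * Real.log (κ + 1)) * ∫ θ, max (Real.log (hh c e θ)) 0 ∂mu +
        2 * π * (72 * (Real.log (κ + 1) + 1)) := by
  have hκ0 : (0 : ℝ) < κ := by exact_mod_cast hκ
  set A := ∑ j, ‖c j‖ with hAdef
  have hA : 1 ≤ A :=
    hm.trans (Finset.single_le_sum (fun j _ => norm_nonneg (c j)) (Finset.mem_univ m))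
  set l := Real.log (κ + 1) with hl
  have hl0 : 0 ≤ l := Real.log_nonneg (by linarith)
  set u0 : ℝ := 4 * κ * l with hu0
  have hu00 : 0 ≤ u0 := by positivity
  have hL := log_integrable c e
  obtain ⟨hN, hN2⟩ := neg_moment2 κ hκ hcard c e he m hm
  have i0 : Integrable (fun θ => Real.log A * max (Real.log (hh c e θ)) 0) mu :=
    hL.pos_part.const_mul _
  have i1 : Integrable (fun θ => max (Real.log (hh c e θ)) 0 - Real.log (hh c e θ)) mu :=
    hL.pos_part.sub hL
  have i2 : Integrable (fun θ => Real.log A * max (Real.log (hh c e θ)) 0 +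
      u0 * (max (Real.log (hh c e θ)) 0 - Real.log (hh c e θ))) mu := i0.add (i1.const_mul u0)
  have i3 : Integrable (fun θ => Real.log A * max (Real.log (hh c e θ)) 0 +
      u0 * (max (Real.log (hh c e θ)) 0 - Real.log (hh c e θ)) +
      (2 * κ * u0 + 8 * κ ^ 2) * Real.exp (-u0 / (2 * κ)) * hh c e θ ^ (-(1 / (2 * κ : ℝ)))) mu :=
    i2.add (hN.const_mul _)
  have h2 : ∀ᵐ θ ∂mu, Real.log (hh c e θ) ^ 2 ≤ Real.log A * max (Real.log (hh c e θ)) 0 +
      u0 * (max (Real.log (hh c e θ)) 0 - Real.log (hh c e θ)) +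
      (2 * κ * u0 + 8 * κ ^ 2) * Real.exp (-u0 / (2 * κ)) * hh c e θ ^ (-(1 / (2 * κ : ℝ))) := by
    filter_upwards [mu_zero κ hκ hcard c e he m hm] with θ hθ
    exact log_sq_le3 κ hκ _ _ hθ (hh_le_sum c e θ) hA u0 hu00
  have h3 := integral_mono_ae (log_sq_integrable κ hκ hcard c e he m hm) i3 h2
  rw [integral_add i2 (hN.const_mul _), integral_add i0 (i1.const_mul u0),
      integral_const_mul, integral_const_mul, integral_const_mul,
      integral_sub hL.pos_part hL] at h3
  set I := ∫ θ, max (Real.log (hh c e θ)) 0 ∂mu with hI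
  have h5 : Real.exp (-u0 / (2 * κ)) = 1 / ((κ : ℝ) + 1) ^ 2 := by
    have : -u0 / (2 * κ) = -(2 * l) := by rw [hu0]; field_simp; ring
    rw [this, Real.exp_neg, two_mul, Real.exp_add, hl, Real.exp_log (by positivity), ← sq, one_div]
  have h6 : (2 * κ * u0 + 8 * κ ^ 2) * Real.exp (-u0 / (2 * κ)) *
      ∫ θ, hh c e θ ^ (-(1 / (2 * κ : ℝ))) ∂mu ≤ 2 * π * (72 * (l + 1)) := by
    calc (2 * κ * u0 + 8 * κ ^ 2) * Real.exp (-u0 / (2 * κ)) *
          ∫ θ, hh c e θ ^ (-(1 / (2 * κ : ℝ))) ∂mu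
        ≤ (2 * κ * u0 + 8 * κ ^ 2) * Real.exp (-u0 / (2 * κ)) * (2 * π * 9) :=
          mul_le_mul_of_nonneg_left hN2 (by positivity)
      _ = 2 * π * (72 * (l + 1) * (κ ^ 2 / ((κ : ℝ) + 1) ^ 2)) := by
          rw [h5, hu0]; field_simp; ring
      _ ≤ 2 * π * (72 * (l + 1) * 1) := by
          apply mul_le_mul_of_nonneg_left _ (by positivity)
          apply mul_le_mul_of_nonneg_left _ (by positivity)
          rw [div_le_one (by positivity)]
          nlinarith
      _ = 2 * π * (72 * (l + 1)) := by ring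
  have h7 : u0 * (I - ∫ θ, Real.log (hh c e θ) ∂mu) ≤ u0 * I :=
    mul_le_mul_of_nonneg_left (by linarith) hu00
  calc ∫ θ, Real.log (hh c e θ) ^ 2 ∂mu ≤ _ := h3
    _ ≤ Real.log A * I + u0 * I + 2 * π * (72 * (l + 1)) := by linarith
    _ = _ := by ring

/-- the mean of `log⁺ |f|` on the unit circle -/
noncomputable def ell1 (f : Polynomial ℤ) : ℝ :=
  Real.circleAverage (fun z => max 0 (Real.log ‖(f.map (Int.castRingHom ℂ)).eval z‖)) 0 1

theorem ell1_eq (f : Polynomial ℤ) :
    ell1 f = (2 * Real.pi)⁻¹ * ∫ θ, max (Real.log ‖(cx f).eval (zz θ)‖) 0 ∂mu := by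
  unfold ell1
  rw [circleAverage_eq]
  congr 1
  refine integral_congr_ae (Filter.Eventually.of_forall fun θ => ?_)
  exact max_comm _ _

theorem ell1_nonneg (f : Polynomial ℤ) : 0 ≤ ell1 f := by
  rw [ell1_eq]
  apply mul_nonneg (by positivity)
  exact integral_nonneg fun θ => le_max_right _ _

theorem DD_one_le3 {f : Polynomial ℤ} (hf : f ≠ 0) :
    DD f 1 ≤ (Real.log (len f) + 4 * f.support.card * Real.log (f.support.card + 1)) * ell1 f +
      72 * (Real.log (f.support.card + 1) + 1) := by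
  obtain ⟨m, hm⟩ := support_data hf
  have hlog : ∫ θ, Real.log ‖(cx f).eval (zz θ)‖ ∂mu =
      2 * Real.pi * Real.log (cx f).mahlerMeasure := by
    have h1 := Polynomial.logMahlerMeasure_eq_log_MahlerMeasure (p := cx f)
    rw [Polynomial.logMahlerMeasure_def, circleAverage_eq] at h1
    rw [← h1]
    have : (2 * Real.pi) ≠ 0 := by positivity
    field_simp
    rfl
  have h := var_bound3 f.support.card (card_support_pos hf) (by simp)
    (fun j : f.support => ((f.coeff j : ℤ) : ℂ)) (fun j => ((j : ℕ) : ℤ)) (support_inj f) m hm (by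
      simp_rw [hh_support]
      rw [hlog]
      have := Real.log_nonneg (mahler_ge_one hf)
      positivity)
  simp_rw [hh_support] at h
  rw [len_eq] at h
  rw [DD_eq, ell1_eq]
  have h2 : ∀ θ, UU (cx f) (cx 1) θ = Real.log ‖(cx f).eval (zz θ)‖ := by
    intro θ
    unfold UU cx
    simp
  simp_rw [h2]
  rw [inv_mul_le_iff₀ (by positivity)]
  refine h.trans (le_of_eq ?_)
  have : (2 * Real.pi) ≠ 0 := by positivity
  field_simp

/-- lower bound in terms of the number of monomials and the mean of `log⁺ |f|` -/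
theorem ell_bound : ∃ c : ℝ, 0 < c ∧ ∀ f : Polynomial ℤ, 1 < (cx f).mahlerMeasure →
    c / (f.support.card * min (f.support.card : ℝ)
      (Real.log (f.support.card + 1) * (1 + ell1 f)) *
        Real.log (f.support.card + 1) ^ 5) ≤ Real.log (cx f).mahlerMeasure := by
  refine ⟨c0 / 10 ^ 8, by have := c0_pos; positivity, ?_⟩
  intro f hM1
  have hf : f ≠ 0 := by
    rintro rfl
    unfold cx at hM1
    rw [Polynomial.map_zero, Polynomial.mahlerMeasure_zero] at hM1
    linarith
  have hc0 := c0_pos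
  set k : ℝ := (f.support.card : ℝ) with hk
  have hk1 : (1 : ℝ) ≤ k := by
    have h := card_support_pos hf
    rw [hk]; exact_mod_cast h
  set M := (cx f).mahlerMeasure with hM
  have hlM : 0 < Real.log M := Real.log_pos hM1
  set B := Real.log (len f) with hB
  have hB0 : 0 ≤ B := Real.log_nonneg (one_le_len hf)
  set lk := Real.log (k + 1) with hlk
  have hl2 := Real.log_two_gt_d9
  have hlk2 : Real.log 2 ≤ lk := Real.log_le_log (by norm_num) (by linarith)
  have hlk0 : 0.69 ≤ lk := by linarith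
  set l := ell1 f with hl
  have hl0 : 0 ≤ l := ell1_nonneg f
  set m := min k (lk * (1 + l)) with hm
  have hm0 : 0.69 ≤ m := le_min (by linarith) (by nlinarith)
  -- the case of large Mahler measure
  rcases le_total 2 M with hbig | hsm
  · have hlog2 : Real.log 2 ≤ Real.log M := Real.log_le_log (by norm_num) hbig
    have hc : c0 / 10 ^ 8 ≤ 0.01 := by unfold c0; norm_num
    have h5 : (0.1 : ℝ) ≤ lk ^ 5 := by
      calc (0.1 : ℝ) ≤ 0.69 ^ 5 := by norm_num
        _ ≤ _ := pow_le_pow_left₀ (by norm_num) hlk0 5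
    have h8 : (0.05 : ℝ) ≤ k * m * lk ^ 5 := by
      have : (0.69 : ℝ) ≤ k * m := by nlinarith
      nlinarith
    calc _ ≤ 0.01 / 0.05 := div_le_div₀ (by norm_num) hc (by norm_num) h8
      _ ≤ Real.log M := by norm_num; linarith
  -- small Mahler measure
  have hBk : B ≤ 6.1 * k := by
    have h1 := log_len_le2 hf
    rw [← hB, ← hM, ← hk] at h1
    have h2 : Real.log M ≤ Real.log 2 := Real.log_le_log (by linarith) hsm
    have h3 := Real.log_two_lt_d9
    linarith
  set V := DD f 1 with hV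
  have hV0 : 0 ≤ V := DD_nonneg f 1
  have hV1 : V ≤ 82 * k ^ 2 := by
    have h1 := DD_one_le2 hf
    rw [← hB, ← hV, ← hk] at h1
    have h2 : B ^ 2 ≤ (6.1 * k) ^ 2 := pow_le_pow_left₀ hB0 hBk 2
    have h3 : k * B ≤ k * (6.1 * k) := mul_le_mul_of_nonneg_left hBk (by linarith)
    nlinarith
  have hV2 : V ≤ 177 * (k * (lk * (1 + l))) := by
    have h1 := DD_one_le3 hf
    rw [← hB, ← hV, ← hk, ← hlk, ← hl] at h1
    have h2 : B * l ≤ 6.1 * k * l := mul_le_mul_of_nonneg_right hBk hl0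
    have h3 : k * l * 0.69 ≤ k * l * lk := mul_le_mul_of_nonneg_left hlk0 (by positivity)
    have h4 : lk ≤ k * lk := by nlinarith
    have h5 : 0 ≤ k * l * lk := by positivity
    nlinarith
  have hkm : k * m * 1 ≤ k ^ 2 ∧ k * m ≤ k * (lk * (1 + l)) := by
    have h1 : m ≤ k := min_le_left _ _
    have h2 : m ≤ lk * (1 + l) := min_le_right _ _
    constructor
    · nlinarith
    · exact mul_le_mul_of_nonneg_left h2 (by linarith)
  have hVa : 1 + V ≤ 180 * (k * m) := by
    rcases le_total k (lk * (1 + l)) with h | h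
    · rw [hm, min_eq_left h]
      nlinarith
    · rw [hm, min_eq_right h]
      have h1 : 0.69 ≤ k * (lk * (1 + l)) := by
        have : 0.69 ≤ lk * (1 + l) := by nlinarith
        nlinarith
      nlinarith
  have hVb : Real.log (2 + V) ≤ 10 * lk := by
    have h1 : 2 + V ≤ (2 ^ 4 * (k + 1)) ^ 2 := by nlinarith
    have h7 := Real.log_le_log (by linarith) h1
    rw [Real.log_pow, Real.log_mul (by norm_num) (by linarith), Real.log_pow] at h7
    push_cast at h7
    linarith
  have hLV : 0 < Real.log (2 + V) := Real.log_pos (by linarith)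
  -- rigidity with `g = 1`
  have hmain : c0 / ((1 + V) * Real.log (2 + V) ^ 5) ≤ Real.log M := by
    rcases rigidity f 1 hf one_ne_zero with h | h
    · exfalso
      obtain ⟨P, Q, hP, hQ, hPQ⟩ := h
      have h1 := congrArg (fun R : Polynomial ℤ => (cx R).mahlerMeasure) hPQ
      simp only [one_mul] at h1
      have h2 : cx (f * P) = cx f * cx P := by unfold cx; rw [Polynomial.map_mul]
      rw [h2, Polynomial.mahlerMeasure_mul, hP, mul_one, hQ] at h1
      rw [← hM] at h1
      linarith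
    · have h1 : Real.log (cx (1 : Polynomial ℤ)).mahlerMeasure = 0 := by
        unfold cx; simp
      rw [h1, add_zero] at h
      exact h
  have hden : (1 + V) * Real.log (2 + V) ^ 5 ≤ 180 * (k * m) * (10 * lk) ^ 5 :=
    mul_le_mul hVa (pow_le_pow_left₀ hLV.le hVb 5) (by positivity) (by positivity)
  refine le_trans ?_ hmain
  rw [div_div]
  apply div_le_div_of_nonneg_left hc0.le (by positivity)
  refine hden.trans ?_
  have : 0 ≤ k * m * lk ^ 5 := by positivity
  nlinarith

end Pool.Agent.Lib.MP_7ab245_nt.NV
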