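import Pool.Agent.Lib.MP_7ab245_nt.NV.Trunc

/-!
# Convergence of logarithmic integrals under a uniform tail bound
-/

namespace Pool.Agent.Lib.MP_7ab245_nt.NV

open MeasureTheory Filter Topology

/-- a bump function at zero -/
noncomputable def bump (y : ℝ) (z : ℂ) : ℝ := max 0 (min 1 (2 - ‖z‖ / y))

theorem bump_cont (y : ℝ) : Continuous (bump y) := by
  unfold bump
  fun_prop

theorem bump_nonneg (y : ℝ) (z : ℂ) : 0 ≤ bump y z := le_max_left _ _

theorem bump_le_one (y : ℝ) (z : ℂ) : bump y z ≤ 1 := max_le zero_le_one (min_le_left _ _)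

theorem bump_eq_one (y : ℝ) (hy : 0 < y) (z : ℂ) (hz : ‖z‖ < y) : bump y z = 1 := by
  unfold bump
  have h : ‖z‖ / y ≤ 1 := by rw [div_le_one hy]; exact hz.le
  rw [min_eq_left (by linarith)]
  exact max_eq_right zero_le_one

theorem bump_eq_zero (y : ℝ) (hy : 0 < y) (z : ℂ) (hz : ¬ ‖z‖ < 2 * y) : bump y z = 0 := by
  unfold bump
  have h : 2 ≤ ‖z‖ / y := by rw [le_div_iff₀ hy]; linarith
  rw [max_eq_left]
  exact (min_le_right _ _).trans (by linarith)

/-- Tail bound for the limit. -/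
theorem tail_limit {Ω : Type*} [MeasurableSpace Ω] (μ : Measure Ω) [IsProbabilityMeasure μ]
    (G : Ω → ℂ) (hG : Measurable G)
    (g : ℕ → ℝ → ℂ) (hg : ∀ a, Measurable (g a))
    (hweak : ∀ ψ : ℂ → ℝ, Continuous ψ →
      Tendsto (fun a => ∫ s in (0 : ℝ)..1, ψ (g a s)) atTop (𝓝 (∫ x, ψ (G x) ∂μ)))
    (K κ : ℝ) (hκ : 0 < κ) (hK : 0 ≤ K)
    (htail : ∀ᶠ a in atTop, ∀ y : ℝ, 0 < y → y ≤ 1 →
      volume {s : ℝ | s ∈ Set.Ioc (0 : ℝ) 1 ∧ ‖g a s‖ < y} ≤ ENNReal.ofReal (K * y ^ κ))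
    (y : ℝ) (hy : 0 < y) (hy1 : y ≤ 1) :
    μ {x | ‖G x‖ < y} ≤ ENNReal.ofReal ((2 ^ κ * (K + 1)) * y ^ κ) := by
  rcases le_or_gt (2 * y) 1 with h2 | h2
  · -- small `y`
    have hms : MeasurableSet {x | ‖G x‖ < y} := measurableSet_lt hG.norm measurable_const
    have hint : Integrable (fun x => bump y (G x)) μ := by
      apply Integrable.of_bound ((bump_cont y).measurable.comp hG).aestronglyMeasurable 1
      refine Filter.Eventually.of_forall fun x => ?_
      show ‖bump y (G x)‖ ≤ 1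
      rw [Real.norm_eq_abs, abs_of_nonneg (bump_nonneg _ _)]
      exact bump_le_one _ _
    have h1 : μ {x | ‖G x‖ < y} ≤ ENNReal.ofReal (∫ x, bump y (G x) ∂μ) := by
      rw [ofReal_integral_eq_lintegral_ofReal hint
        (Filter.Eventually.of_forall fun x => bump_nonneg _ _), ← lintegral_indicator_one hms]
      apply lintegral_mono
      intro x
      by_cases hx : x ∈ {x | ‖G x‖ < y}
      · simp only [Set.indicator_of_mem hx, Pi.one_apply]
        rw [bump_eq_one y hy _ hx, ENNReal.ofReal_one]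
      · simp only [Set.indicator_of_notMem hx]
        exact bot_le
    refine h1.trans (ENNReal.ofReal_le_ofReal ?_)
    have h3 : ∫ x, bump y (G x) ∂μ ≤ K * (2 * y) ^ κ := by
      refine le_of_tendsto (hweak (bump y) (bump_cont y)) ?_
      filter_upwards [htail] with a ha
      have h4 := ha (2 * y) (by positivity) h2
      have hms2 : MeasurableSet {s : ℝ | s ∈ Set.Ioc (0 : ℝ) 1 ∧ ‖g a s‖ < 2 * y} :=
        measurableSet_Ioc.inter (measurableSet_lt (hg a).norm measurable_const)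
      have h5 : (volume {s : ℝ | s ∈ Set.Ioc (0 : ℝ) 1 ∧ ‖g a s‖ < 2 * y}) ≠ ⊤ :=
        (h4.trans_lt ENNReal.ofReal_lt_top).ne
      have h6 : (volume {s : ℝ | s ∈ Set.Ioc (0 : ℝ) 1 ∧ ‖g a s‖ < 2 * y}).toReal ≤
          K * (2 * y) ^ κ :=
        ENNReal.toReal_le_of_le_ofReal (by positivity) h4
      refine le_trans ?_ h6
      rw [intervalIntegral.integral_of_le zero_le_one]
      have h7 : (volume {s : ℝ | s ∈ Set.Ioc (0 : ℝ) 1 ∧ ‖g a s‖ < 2 * y}).toReal =
          ∫ s in Set.Ioc (0 : ℝ) 1, ({s : ℝ | ‖g a s‖ < 2 * y}.indicator (fun _ => (1 : ℝ))) s := by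
        rw [integral_indicator (measurableSet_lt (hg a).norm measurable_const),
          Measure.restrict_restrict (measurableSet_lt (hg a).norm measurable_const)]
        rw [integral_const, smul_eq_mul, mul_one, Measure.real, Measure.restrict_apply_univ]
        congr 2
        ext s
        simp only [Set.mem_ofPred_eq, Set.mem_inter_iff]
        tauto
      rw [h7]
      apply integral_mono_of_nonneg
      · exact Filter.Eventually.of_forall fun s => bump_nonneg _ _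
      · apply (integrable_const (1 : ℝ)).indicator
          (measurableSet_lt (hg a).norm measurable_const)
      · refine Filter.Eventually.of_forall fun s => ?_
        by_cases hs : s ∈ {s : ℝ | ‖g a s‖ < 2 * y}
        · simp only [Set.indicator_of_mem hs]
          exact bump_le_one _ _
        · simp only [Set.indicator_of_notMem hs]
          rw [bump_eq_zero y hy _ hs]
    refine h3.trans ?_
    rw [Real.mul_rpow (by norm_num) hy.le]
    have : 0 < (2 : ℝ) ^ κ * y ^ κ := by positivity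
    nlinarith
  · -- large `y`
    refine prob_le_one.trans ?_
    rw [← ENNReal.ofReal_one]
    apply ENNReal.ofReal_le_ofReal
    have h3 : (1 : ℝ) ≤ (2 * y) ^ κ := Real.one_le_rpow h2.le hκ.le
    rw [Real.mul_rpow (by norm_num) hy.le] at h3
    nlinarith

/-- The limit theorem. -/
theorem limit {Ω : Type*} [MeasurableSpace Ω] (μ : Measure Ω) [IsProbabilityMeasure μ]
    (G : Ω → ℂ) (hG : Measurable G) (B : ℝ) (hB : ∀ x, ‖G x‖ ≤ B)
    (g : ℕ → ℝ → ℂ) (hg : ∀ a, Measurable (g a)) (hgB : ∀ a s, ‖g a s‖ ≤ B)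
    (hweak : ∀ ψ : ℂ → ℝ, Continuous ψ →
      Tendsto (fun a => ∫ s in (0 : ℝ)..1, ψ (g a s)) atTop (𝓝 (∫ x, ψ (G x) ∂μ)))
    (K κ : ℝ) (hκ : 0 < κ) (hK : 0 ≤ K)
    (htail : ∀ᶠ a in atTop, ∀ y : ℝ, 0 < y → y ≤ 1 →
      volume {s : ℝ | s ∈ Set.Ioc (0 : ℝ) 1 ∧ ‖g a s‖ < y} ≤ ENNReal.ofReal (K * y ^ κ)) :
    Integrable (fun x => Real.log ‖G x‖) μ ∧
    Tendsto (fun a => ∫ s in (0 : ℝ)..1, Real.log ‖g a s‖) atTop
      (𝓝 (∫ x, Real.log ‖G x‖ ∂μ)) := by
  obtain ⟨hI, hT⟩ := trunc μ G hG B hB (2 ^ κ * (K + 1)) κ hκ (by positivity)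
    (tail_limit μ G hG g hg hweak K κ hκ hK htail)
  refine ⟨hI, ?_⟩
  rw [Metric.tendsto_atTop]
  intro ε hε
  -- choice of `y`
  obtain ⟨y, hy0, hy1, hyε⟩ : ∃ y : ℝ, 0 < y ∧ y ≤ 1 ∧ (2 ^ κ * (K + 1)) * y ^ κ / κ < ε / 3 := by
    have h1 : Tendsto (fun y : ℝ => (2 ^ κ * (K + 1)) * y ^ κ / κ) (𝓝[>] 0) (𝓝 0) := by
      have h2 : Tendsto (fun y : ℝ => y ^ κ) (𝓝[>] 0) (𝓝 0) := by
        have h3 := (Real.continuousAt_rpow_const 0 κ (Or.inr hκ.le)).tendsto
        rw [Real.zero_rpow hκ.ne'] at h3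
        exact h3.mono_left nhdsWithin_le_nhds
      have h4 := (h2.const_mul (2 ^ κ * (K + 1))).div_const κ
      simpa using h4
    have h5 := h1.eventually (gt_mem_nhds (by positivity : (0 : ℝ) < ε / 3))
    have h6 : ∀ᶠ y : ℝ in 𝓝[>] 0, y ∈ Set.Ioc (0 : ℝ) 1 := Ioc_mem_nhdsGT zero_lt_one
    obtain ⟨y, hy⟩ := (h5.and h6).exists
    exact ⟨y, hy.2.1, hy.2.2, hy.1⟩
  have hcont : Continuous (fun z : ℂ => Real.log (max ‖z‖ y)) := by
    apply Continuous.log
    · fun_prop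
    · intro z
      exact (lt_of_lt_of_le hy0 (le_max_right _ _)).ne'
  have hw := hweak _ hcont
  rw [Metric.tendsto_atTop] at hw
  obtain ⟨N, hN⟩ := hw (ε / 3) (by positivity)
  obtain ⟨N', hN'⟩ := Filter.eventually_atTop.1 htail
  refine ⟨max N N', fun a ha => ?_⟩
  have hw1 := hN a (le_of_max_le_left ha)
  obtain ⟨hIa, hTa⟩ := trunc (volume.restrict (Set.Ioc (0 : ℝ) 1)) (g a) (hg a) B (hgB a) K κ hκ hK
    (by
      intro y hy hy1
      rw [Measure.restrict_apply (measurableSet_lt (hg a).norm measurable_const)]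
      refine le_trans (le_of_eq ?_) (hN' a (le_of_max_le_right ha) y hy hy1)
      congr 1
      ext s
      simp only [Set.mem_ofPred_eq, Set.mem_inter_iff]
      tauto)
  have e1 := hT y hy0 hy1
  have e2 := hTa y hy0 hy1
  rw [intervalIntegral.integral_of_le zero_le_one] at hw1 ⊢
  rw [Real.dist_eq, abs_lt] at hw1 ⊢
  have hKK : K * y ^ κ / κ ≤ (2 ^ κ * (K + 1)) * y ^ κ / κ := by
    have h1 : (1 : ℝ) ≤ 2 ^ κ := Real.one_le_rpow one_le_two hκ.le
    have h2 : 0 < y ^ κ := by positivity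
    have h3 : K ≤ 2 ^ κ * (K + 1) := by nlinarith
    gcongr
  constructor
  · linarith [hw1.1, hw1.2, e1.1, e1.2, e2.1, e2.2]
  · linarith [hw1.1, hw1.2, e1.1, e1.2, e2.1, e2.2]

end Pool.Agent.Lib.MP_7ab245_nt.NV
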