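import Pool.Agent.Lib.MP_7ab245_nt.NV.Trunc2
import Pool.Agent.Lib.MP_7ab245_nt.NV.Lim

/-!
# Convergence of the mean square of the logarithm under a uniform tail bound
-/

set_option autoImplicit false

namespace Pool.Agent.Lib.MP_7ab245_nt.NV

open MeasureTheory Filter Topology

/-- The limit theorem for the square of the logarithm. -/
theorem limit2 {Ω : Type*} [MeasurableSpace Ω] (μ : Measure Ω) [IsProbabilityMeasure μ]
    (G : Ω → ℂ) (hG : Measurable G) (B : ℝ) (hB : ∀ x, ‖G x‖ ≤ B)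
    (g : ℕ → ℝ → ℂ) (hg : ∀ a, Measurable (g a)) (hgB : ∀ a s, ‖g a s‖ ≤ B)
    (hweak : ∀ ψ : ℂ → ℝ, Continuous ψ →
      Tendsto (fun a => ∫ s in (0 : ℝ)..1, ψ (g a s)) atTop (𝓝 (∫ x, ψ (G x) ∂μ)))
    (K κ : ℝ) (hκ : 0 < κ) (hK : 0 ≤ K)
    (htail : ∀ᶠ a in atTop, ∀ y : ℝ, 0 < y → y ≤ 1 →
      volume {s : ℝ | s ∈ Set.Ioc (0 : ℝ) 1 ∧ ‖g a s‖ < y} ≤ ENNReal.ofReal (K * y ^ κ)) :
    Integrable (fun x => Real.log ‖G x‖ ^ 2) μ ∧
    Tendsto (fun a => ∫ s in (0 : ℝ)..1, Real.log ‖g a s‖ ^ 2) atTop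
      (𝓝 (∫ x, Real.log ‖G x‖ ^ 2 ∂μ)) := by
  obtain ⟨hI, hT⟩ := trunc2 μ G hG B hB (2 ^ κ * (K + 1)) κ hκ (by positivity)
    (tail_limit μ G hG g hg hweak K κ hκ hK htail)
  refine ⟨hI, ?_⟩
  rw [Metric.tendsto_atTop]
  intro ε hε
  -- choice of `y`
  obtain ⟨y, hy0, hy1, hyε⟩ : ∃ y : ℝ, 0 < y ∧ y ≤ 1 ∧
      (2 ^ κ * (K + 1)) * y ^ κ * (2 / κ ^ 2 + 2 * (-Real.log y) / κ) < ε / 3 := by
    have h2 : Tendsto (fun y : ℝ => y ^ κ) (𝓝[>] 0) (𝓝 0) := by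
      have h3 := (Real.continuousAt_rpow_const 0 κ (Or.inr hκ.le)).tendsto
      rw [Real.zero_rpow hκ.ne'] at h3
      exact h3.mono_left nhdsWithin_le_nhds
    have h3 : Tendsto (fun y : ℝ => Real.log y * y ^ κ) (𝓝[>] 0) (𝓝 0) :=
      tendsto_log_mul_rpow_nhdsGT_zero hκ
    have h1 : Tendsto (fun y : ℝ => (2 ^ κ * (K + 1)) * y ^ κ *
        (2 / κ ^ 2 + 2 * (-Real.log y) / κ)) (𝓝[>] 0) (𝓝 0) := by
      have h4 := (h2.const_mul ((2 ^ κ * (K + 1)) * (2 / κ ^ 2))).sub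
        (h3.const_mul ((2 ^ κ * (K + 1)) * (2 / κ)))
      rw [mul_zero, mul_zero, sub_zero] at h4
      refine h4.congr fun y => ?_
      ring
    have h5 := h1.eventually (gt_mem_nhds (by positivity : (0 : ℝ) < ε / 3))
    have h6 : ∀ᶠ y : ℝ in 𝓝[>] 0, y ∈ Set.Ioc (0 : ℝ) 1 := Ioc_mem_nhdsGT zero_lt_one
    obtain ⟨y, hy⟩ := (h5.and h6).exists
    exact ⟨y, hy.2.1, hy.2.2, hy.1⟩
  have hcont : Continuous (fun z : ℂ => Real.log (max ‖z‖ y) ^ 2) := by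
    apply Continuous.pow
    apply Continuous.log
    · fun_prop
    · intro z
      exact (lt_of_lt_of_le hy0 (le_max_right _ _)).ne'
  have hw := hweak _ hcont
  rw [Metric.tendsto_atTop] at hw
  obtain ⟨N, hN⟩ := hw (ε / 3) (by positivity)
  obtain ⟨N', hN'⟩ := Filter.eventually_atTop.1 htail
  refine ⟨max N N', fun a ha => ?_⟩
  have hw1 := hN a (le_of_max_le_left ha)
  obtain ⟨hIa, hTa⟩ := trunc2 (volume.restrict (Set.Ioc (0 : ℝ) 1)) (g a) (hg a) B (hgB a) K κ hκ hK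
    (by
      intro y hy hy1
      rw [Measure.restrict_apply (measurableSet_lt (hg a).norm measurable_const)]
      refine le_trans (le_of_eq ?_) (hN' a (le_of_max_le_right ha) y hy hy1)
      congr 1
      ext s
      simp only [Set.mem_ofPred_eq, Set.mem_inter_iff]
      tauto)
  have e1 := hT y hy0 hy1
  have e2 := hTa y hy0 hy1
  rw [intervalIntegral.integral_of_le zero_le_one] at hw1 ⊢
  rw [Real.dist_eq, abs_lt] at hw1 ⊢
  have hlog : 0 ≤ -Real.log y := by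
    have := Real.log_nonpos hy0.le hy1
    linarith
  have hKK : K * y ^ κ * (2 / κ ^ 2 + 2 * (-Real.log y) / κ) ≤
      (2 ^ κ * (K + 1)) * y ^ κ * (2 / κ ^ 2 + 2 * (-Real.log y) / κ) := by
    have h1 : (1 : ℝ) ≤ 2 ^ κ := Real.one_le_rpow one_le_two hκ.le
    have h2 : 0 < y ^ κ := by positivity
    have h3 : K ≤ 2 ^ κ * (K + 1) := by nlinarith
    have h4 : 0 ≤ 2 / κ ^ 2 + 2 * (-Real.log y) / κ := by positivity
    gcongr
  constructor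
  · linarith [hw1.1, hw1.2, e1.1, e1.2, e2.1, e2.2]
  · linarith [hw1.1, hw1.2, e1.1, e1.2, e2.1, e2.2]

end Pool.Agent.Lib.MP_7ab245_nt.NV
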