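import Pool.Agent.Lib.MP_7ab245_nt.NV.Defs

/-!
# The specialisation `x_i ↦ X ^ (a ^ i)`
-/

namespace Pool.Agent.Lib.MP_7ab245_nt.NV

open Filter Topology

private theorem spec_eq {n : ℕ} (a : ℕ) (F : MvPolynomial (Fin n) ℤ) :
    spec a F = ∑ m ∈ F.support,
      Polynomial.monomial (∑ i : Fin n, a ^ (i : ℕ) * m i) (F.coeff m) := by
  unfold spec
  rw [MvPolynomial.aeval_def, MvPolynomial.eval₂_eq']
  refine Finset.sum_congr rfl fun m _ => ?_
  rw [← Polynomial.C_mul_X_pow_eq_monomial]
  congr 1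
  simp only [← pow_mul]
  rw [Finset.prod_pow_eq_pow_sum]

private theorem ne_of_ne {n : ℕ} (m m' : Fin n →₀ ℕ) (h : m ≠ m') :
    ∀ᶠ a : ℕ in atTop, (∑ i : Fin n, a ^ (i : ℕ) * m i) ≠ ∑ i : Fin n, a ^ (i : ℕ) * m' i := by
  obtain ⟨i0, hi0⟩ : ∃ i, m i ≠ m' i := by
    by_contra hcon
    push Not at hcon
    exact h (Finsupp.ext hcon)
  set P : Polynomial ℝ := ∑ i : Fin n, Polynomial.monomial (i : ℕ) ((m i : ℝ) - m' i) with hP
  have hP0 : P ≠ 0 := by
    intro h0
    have h1 : P.coeff (i0 : ℕ) = (m i0 : ℝ) - m' i0 := by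
      rw [hP, Polynomial.finsetSum_coeff, Finset.sum_eq_single i0]
      · rw [Polynomial.coeff_monomial, if_pos rfl]
      · intro b _ hb
        rw [Polynomial.coeff_monomial, if_neg]
        exact fun h2 => hb (Fin.ext h2)
      · intro h2
        exact absurd (Finset.mem_univ _) h2
    rw [h0, Polynomial.coeff_zero] at h1
    have h2 : (m i0 : ℝ) = m' i0 := by linarith
    exact hi0 (by exact_mod_cast h2)
  have h1 := tendsto_natCast_atTop_atTop (R := ℝ) |>.eventually
    (Polynomial.eventually_atTop_not_isRoot P hP0)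
  filter_upwards [h1] with a ha heq
  apply ha
  rw [Polynomial.IsRoot, hP, Polynomial.eval_finsetSum]
  have h2 : ∀ i : Fin n, (Polynomial.monomial (i : ℕ) ((m i : ℝ) - m' i)).eval (a : ℝ) =
      (a : ℝ) ^ (i : ℕ) * m i - (a : ℝ) ^ (i : ℕ) * m' i := fun i => by
    rw [Polynomial.eval_monomial]
    ring
  rw [Finset.sum_congr rfl fun i _ => h2 i, Finset.sum_sub_distrib, sub_eq_zero]
  exact_mod_cast heq

private theorem spec_inj {n : ℕ} (F : MvPolynomial (Fin n) ℤ) :
    ∀ᶠ a : ℕ in atTop,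
      Set.InjOn (fun m : Fin n →₀ ℕ => ∑ i : Fin n, a ^ (i : ℕ) * m i) F.support := by
  have h1 : ∀ᶠ a : ℕ in atTop, ∀ m ∈ F.support, ∀ m' ∈ F.support, m ≠ m' →
      (∑ i : Fin n, a ^ (i : ℕ) * m i) ≠ ∑ i : Fin n, a ^ (i : ℕ) * m' i := by
    rw [Filter.eventually_all_finset]
    intro m _
    rw [Filter.eventually_all_finset]
    intro m' _
    by_cases h : m = m'
    · exact Filter.Eventually.of_forall fun a h2 => absurd h h2
    · exact (ne_of_ne m m' h).mono fun a ha _ => ha
  filter_upwards [h1] with a ha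
  intro m hm m' hm' heq
  by_contra hne
  exact ha m hm m' hm' hne heq

/-- For large `a` the specialisation keeps the coefficients. -/
theorem spec_sum {n : ℕ} (F : MvPolynomial (Fin n) ℤ) :
    ∀ᶠ a : ℕ in atTop, ∀ φ : ℤ → ℝ, ∑ i ∈ (spec a F).support, φ ((spec a F).coeff i) =
      ∑ m ∈ F.support, φ (F.coeff m) := by
  classical
  filter_upwards [spec_inj F] with a hinj
  intro φ
  have hc : ∀ m ∈ F.support, (spec a F).coeff (∑ i : Fin n, a ^ (i : ℕ) * m i) = F.coeff m := by
    intro m hm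
    rw [spec_eq, Polynomial.finsetSum_coeff, Finset.sum_eq_single m]
    · rw [Polynomial.coeff_monomial, if_pos rfl]
    · intro b hb hbm
      rw [Polynomial.coeff_monomial, if_neg]
      exact fun h2 => hbm (hinj hb hm h2)
    · intro h2
      exact absurd hm h2
  have hs : (spec a F).support =
      F.support.image (fun m : Fin n →₀ ℕ => ∑ i : Fin n, a ^ (i : ℕ) * m i) := by
    ext k
    rw [Polynomial.mem_support_iff, Finset.mem_image]
    constructor
    · intro h
      rw [spec_eq, Polynomial.finsetSum_coeff] at h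
      obtain ⟨m, hm, hm2⟩ := Finset.exists_ne_zero_of_sum_ne_zero h
      refine ⟨m, hm, ?_⟩
      by_contra hne
      exact hm2 (by rw [Polynomial.coeff_monomial, if_neg hne])
    · rintro ⟨m, hm, rfl⟩
      rw [hc m hm]
      exact MvPolynomial.mem_support_iff.1 hm
  rw [hs, Finset.sum_image hinj]
  exact Finset.sum_congr rfl fun m hm => by rw [hc m hm]

/-- For large `a` the specialisation keeps the number of monomials. -/
theorem spec_card {n : ℕ} (F : MvPolynomial (Fin n) ℤ) :
    ∀ᶠ a : ℕ in atTop, (spec a F).support.card = F.support.card := by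
  filter_upwards [spec_sum F] with a ha
  have h := ha fun _ => 1
  rw [Finset.sum_const, Finset.sum_const, nsmul_eq_mul, nsmul_eq_mul, mul_one, mul_one] at h
  exact_mod_cast h

/-- Values of the specialisation on the unit circle. -/
theorem spec_eval {n : ℕ} (a : ℕ) (F : MvPolynomial (Fin n) ℤ) (s : ℝ) :
    ((spec a F).map (Int.castRingHom ℂ)).eval (circleMap 0 1 (2 * Real.pi * s)) =
      val F fun i => (a : ℝ) ^ (i : ℕ) * s := by
  unfold spec val
  have h1 : ∀ p : Polynomial ℤ, (p.map (Int.castRingHom ℂ)).eval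
      (circleMap 0 1 (2 * Real.pi * s)) =
      Polynomial.aeval (circleMap 0 1 (2 * Real.pi * s)) p := fun p => by
    rw [Polynomial.eval_map, Polynomial.aeval_def]
    rfl
  rw [h1, ← AlgHom.comp_apply, MvPolynomial.comp_aeval]
  congr 2
  funext i
  rw [map_pow, Polynomial.aeval_X]
  rw [circleMap]
  rw [Complex.ofReal_one, one_mul, zero_add, ← Complex.exp_nat_mul]
  congr 1
  push_cast
  ring

end Pool.Agent.Lib.MP_7ab245_nt.NV
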