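import Pool.Agent.Lib.MP_7ab245_nt.LogVar.Monomial3

/-!
# Small values and the Mahler measure of an integer polynomial on `(0, 1]`
-/

set_option autoImplicit false

namespace Pool.Agent.Lib.MP_7ab245_nt.NV

open MeasureTheory Pool.Agent.Lib.MP_7ab245_nt.Mono Pool.Agent.Lib.MP_7ab245_nt.LogVar

/-- Small values of a polynomial with few terms. -/
theorem tail (f : Polynomial ℤ) (hf : f ≠ 0) (y : ℝ) (hy : 0 < y) :
    volume {s : ℝ | s ∈ Set.Ioc (0 : ℝ) 1 ∧
      ‖(f.map (Int.castRingHom ℂ)).eval (circleMap 0 1 (2 * Real.pi * s))‖ < y} ≤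
      ENNReal.ofReal (14 * f.support.card * y ^ (1 / (f.support.card : ℝ))) := by
  obtain ⟨m, hm⟩ := support_data hf
  have h1 := mu_le f.support.card (card_support_pos hf) (by simp)
    (fun j : f.support => ((f.coeff j : ℤ) : ℂ)) (fun j => ((j : ℕ) : ℤ)) (support_inj f) m hm y hy
  simp_rw [hh_support] at h1
  have hpi := Real.pi_pos
  have hms : MeasurableSet {θ : ℝ | ‖(cx f).eval (zz θ)‖ ≤ y} := by
    apply measurableSet_le _ measurable_const
    exact (((cx f).continuous.comp (continuous_circleMap 0 1)).norm).measurable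
  have h2 : {s : ℝ | s ∈ Set.Ioc (0 : ℝ) 1 ∧
      ‖(f.map (Int.castRingHom ℂ)).eval (circleMap 0 1 (2 * Real.pi * s))‖ < y} ⊆
      (fun s => (2 * Real.pi) * s) ⁻¹' ({θ : ℝ | ‖(cx f).eval (zz θ)‖ ≤ y} ∩
        Set.Ioc 0 (2 * Real.pi)) := by
    rintro s ⟨⟨hs0, hs1⟩, hs⟩
    refine ⟨hs.le, ?_, ?_⟩
    · show 0 < 2 * Real.pi * s
      positivity
    · show 2 * Real.pi * s ≤ 2 * Real.pi
      nlinarith
  refine (measure_mono h2).trans ?_
  rw [Real.volume_preimage_mul_left (by positivity : (2 * Real.pi) ≠ 0)]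
  unfold mu at h1
  rw [Measure.restrict_apply hms] at h1
  refine (mul_le_mul_right h1 _).trans ?_
  rw [← ENNReal.ofReal_mul (abs_nonneg _), abs_of_pos (by positivity : 0 < (2 * Real.pi)⁻¹)]
  apply ENNReal.ofReal_le_ofReal
  apply le_of_eq
  field_simp

/-- The logarithmic Mahler measure as an integral over `(0, 1]`. -/
theorem mahler (f : Polynomial ℤ) :
    Real.log (f.map (Int.castRingHom ℂ)).mahlerMeasure =
      ∫ s in (0 : ℝ)..1,
        Real.log ‖(f.map (Int.castRingHom ℂ)).eval (circleMap 0 1 (2 * Real.pi * s))‖ := by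
  have h1 := Polynomial.logMahlerMeasure_eq_log_MahlerMeasure (p := f.map (Int.castRingHom ℂ))
  rw [← h1, Polynomial.logMahlerMeasure_def, Real.circleAverage_def, smul_eq_mul]
  have h2 := intervalIntegral.integral_comp_mul_left (a := 0) (b := 1)
    (fun θ : ℝ => Real.log ‖(f.map (Int.castRingHom ℂ)).eval (circleMap 0 1 θ)‖)
    (c := 2 * Real.pi) (by positivity)
  rw [mul_zero, mul_one, smul_eq_mul] at h2
  exact h2.symm

end Pool.Agent.Lib.MP_7ab245_nt.NV
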