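import Pool.Agent.Lib.MP_7ab245_nt.NV.Weak
import Pool.Agent.Lib.MP_7ab245_nt.NV.Spec
import Pool.Agent.Lib.MP_7ab245_nt.NV.Lim
import Pool.Agent.Lib.MP_7ab245_nt.NV.Tail

/-!
# Lower bounds for Mahler measures pass from one to several variables
-/

set_option autoImplicit false

namespace Pool.Agent.Lib.MP_7ab245_nt.NV

open MeasureTheory Filter Topology

/-- length -/
noncomputable def lenM {n : ℕ} (F : MvPolynomial (Fin n) ℤ) : ℝ :=
  ∑ m ∈ F.support, |((F.coeff m : ℤ) : ℝ)|

theorem val_cont {n : ℕ} (F : MvPolynomial (Fin n) ℤ) : Continuous (val F) := by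
  unfold val
  simp only [MvPolynomial.aeval_def, MvPolynomial.eval₂_eq']
  fun_prop

theorem val_le {n : ℕ} (F : MvPolynomial (Fin n) ℤ) (θ : Fin n → ℝ) : ‖val F θ‖ ≤ lenM F := by
  unfold val lenM
  rw [MvPolynomial.aeval_def, MvPolynomial.eval₂_eq']
  refine (norm_sum_le _ _).trans (Finset.sum_le_sum fun m _ => ?_)
  have h1 : ∀ t : ℝ, ‖Complex.exp (2 * Real.pi * t * Complex.I)‖ = 1 := by
    intro t
    have := Complex.norm_exp_ofReal_mul_I (2 * Real.pi * t)
    push_cast at this
    exact this
  rw [norm_mul, norm_prod]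
  simp only [norm_pow, h1, one_pow, Finset.prod_const_one, mul_one]
  simp

instance prob_cube (n : ℕ) : IsProbabilityMeasure (volume.restrict (cube n)) := by
  refine ⟨?_⟩
  rw [Measure.restrict_apply_univ, cube, Real.volume_pi_Ioc]
  simp

/-- **Boyd–Lawton** for the specialisations `x_i ↦ X ^ (a ^ i)`, `a → ∞`. -/
theorem boyd_lawton {n : ℕ} (F : MvPolynomial (Fin n) ℤ) (hF : F ≠ 0) :
    IntegrableOn (fun θ => Real.log ‖val F θ‖) (cube n) ∧
    Tendsto (fun a : ℕ => Real.log ((spec a F).map (Int.castRingHom ℂ)).mahlerMeasure) atTop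
      (𝓝 (logM F)) := by
  have hk : 0 < F.support.card := Finset.card_pos.mpr (MvPolynomial.support_nonempty.mpr hF)
  have hk' : (0 : ℝ) < F.support.card := by exact_mod_cast hk
  have h := limit (volume.restrict (cube n)) (val F) (val_cont F).measurable (lenM F) (val_le F)
    (fun a s => val F fun i => (a : ℝ) ^ (i : ℕ) * s)
    (fun a => ((val_cont F).comp (by fun_prop)).measurable) (fun a s => val_le F _)
    (fun ψ hψ => weak F ψ hψ) (14 * F.support.card) (1 / (F.support.card : ℝ)) (by positivity)
    (by positivity) (by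
      filter_upwards [spec_card F] with a ha
      intro y hy _
      have hne : spec a F ≠ 0 := by
        intro h0
        rw [h0, Polynomial.support_zero, Finset.card_empty] at ha
        omega
      have h1 := tail (spec a F) hne y hy
      rw [ha] at h1
      simp only [spec_eval] at h1
      exact h1)
  refine ⟨h.1, ?_⟩
  have h2 := h.2
  have e1 : ∀ a : ℕ, ∫ s in (0 : ℝ)..1, Real.log ‖val F fun i => (a : ℝ) ^ (i : ℕ) * s‖ =
      Real.log ((spec a F).map (Int.castRingHom ℂ)).mahlerMeasure := by
    intro a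
    rw [mahler]
    simp only [spec_eval]
  simp only [e1] at h2
  exact h2

/-- **Transfer principle**: a lower bound for the Mahler measures of integer polynomials in one
variable in terms of the number of terms and the length holds in any number of variables. -/
theorem transfer (B : ℕ → ℝ → ℝ)
    (hB : ∀ f : Polynomial ℤ, 1 < (f.map (Int.castRingHom ℂ)).mahlerMeasure →
      B f.support.card (∑ i ∈ f.support, |(f.coeff i : ℝ)|) ≤
        Real.log (f.map (Int.castRingHom ℂ)).mahlerMeasure)
    {n : ℕ} (F : MvPolynomial (Fin n) ℤ) (hF : 0 < logM F) :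
    B F.support.card (∑ m ∈ F.support, |((F.coeff m : ℤ) : ℝ)|) ≤ logM F := by
  have hne : F ≠ 0 := by
    rintro rfl
    have h0 : logM (0 : MvPolynomial (Fin n) ℤ) = 0 := by
      unfold logM val
      simp
    rw [h0] at hF
    exact lt_irrefl _ hF
  obtain ⟨-, h⟩ := boyd_lawton F hne
  refine ge_of_tendsto h ?_
  filter_upwards [h.eventually (lt_mem_nhds hF), spec_card F, spec_sum F] with a h1 h2 h3
  have h4 := h3 fun x => |(x : ℝ)|
  rw [← h2, ← h4]
  apply hB
  have h5 : 0 ≤ ((spec a F).map (Int.castRingHom ℂ)).mahlerMeasure :=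
    Polynomial.mahlerMeasure_nonneg _
  by_contra hcon
  exact absurd (Real.log_nonpos h5 (not_lt.mp hcon)) (not_le.mpr h1)

/-- Lehmer's bound in several variables, in terms of the number of terms and the length. -/
theorem several : ∃ c : ℝ, 0 < c ∧ ∀ (n : ℕ) (F : MvPolynomial (Fin n) ℤ), 0 < logM F →
    c / (F.support.card * min (F.support.card : ℝ)
      (Real.log (F.support.card + 1) * (1 + Real.log (∑ m ∈ F.support, |((F.coeff m : ℤ) : ℝ)|))) *
        Real.log (F.support.card + 1) ^ 5) ≤ logM F := by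
  obtain ⟨c, hc, h⟩ := LogVar.monomial_bound_min
  refine ⟨c, hc, fun n F hF => ?_⟩
  exact transfer (fun k L => c / (k * min (k : ℝ) (Real.log (k + 1) * (1 + Real.log L)) *
    Real.log (k + 1) ^ 5)) (fun f hf => h f hf) F hF

end Pool.Agent.Lib.MP_7ab245_nt.NV
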