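import Pool.Agent.Lib.MP_7ab245_nt.NV.Main
import Pool.Agent.Lib.MP_7ab245_nt.NV.Lim2
import Pool.Agent.Lib.MP_7ab245_nt.NV.Ell

/-!
# Lower bounds for Mahler measures in several variables
-/

set_option autoImplicit false

namespace Pool.Agent.Lib.MP_7ab245_nt.NV

open MeasureTheory Filter Topology

/-- The mean of `(log |F|)²` over the torus. -/
noncomputable def sqM {n : ℕ} (F : MvPolynomial (Fin n) ℤ) : ℝ :=
  ∫ θ in cube n, Real.log ‖val F θ‖ ^ 2

theorem cont_pos : Continuous (fun z : ℂ => max 0 (Real.log ‖z‖)) :=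
  Real.continuous_posLog.comp continuous_norm

theorem circle_eq (g : ℂ → ℝ) :
    Real.circleAverage g 0 1 = ∫ s in (0 : ℝ)..1, g (circleMap 0 1 (2 * Real.pi * s)) := by
  rw [Real.circleAverage_def, smul_eq_mul]
  have h2 := intervalIntegral.integral_comp_mul_left (a := 0) (b := 1)
    (fun θ : ℝ => g (circleMap 0 1 θ)) (c := 2 * Real.pi) (by positivity)
  rw [mul_zero, mul_one, smul_eq_mul] at h2
  exact h2.symm

theorem ell_tendsto {n : ℕ} (F : MvPolynomial (Fin n) ℤ) :
    Tendsto (fun a : ℕ => ell1 (spec a F)) atTop (𝓝 (ell F)) := by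
  have h := weak F _ cont_pos
  have e1 : ∀ a : ℕ, ell1 (spec a F) =
      ∫ s in (0 : ℝ)..1, max 0 (Real.log ‖val F fun i => (a : ℝ) ^ (i : ℕ) * s‖) := by
    intro a
    unfold ell1
    rw [circle_eq]
    simp only [spec_eval]
  simp only [e1]
  exact h

theorem sq_tendsto {n : ℕ} (F : MvPolynomial (Fin n) ℤ) (hF : F ≠ 0) :
    IntegrableOn (fun θ => Real.log ‖val F θ‖ ^ 2) (cube n) ∧
    Tendsto (fun a : ℕ => LogVar.DD (spec a F) 1) atTop (𝓝 (sqM F)) := by
  have hk : 0 < F.support.card := Finset.card_pos.mpr (MvPolynomial.support_nonempty.mpr hF)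
  have hk' : (0 : ℝ) < F.support.card := by exact_mod_cast hk
  have h := limit2 (volume.restrict (cube n)) (val F) (val_cont F).measurable (lenM F) (val_le F)
    (fun a s => val F fun i => (a : ℝ) ^ (i : ℕ) * s)
    (fun a => ((val_cont F).comp (by fun_prop)).measurable) (fun a s => val_le F _)
    (fun ψ hψ => weak F ψ hψ) (14 * F.support.card) (1 / (F.support.card : ℝ)) (by positivity)
    (by positivity) (by
      filter_upwards [spec_card F] with a ha
      intro y hy _
      have hne : spec a F ≠ 0 := by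
        intro h0
        rw [h0, Polynomial.support_zero, Finset.card_empty] at ha
        omega
      have h1 := tail (spec a F) hne y hy
      rw [ha] at h1
      simp only [spec_eval] at h1
      exact h1)
  refine ⟨h.1, ?_⟩
  have h2 := h.2
  have e1 : ∀ a : ℕ, ∫ s in (0 : ℝ)..1, Real.log ‖val F fun i => (a : ℝ) ^ (i : ℕ) * s‖ ^ 2 =
      LogVar.DD (spec a F) 1 := by
    intro a
    unfold LogVar.DD
    rw [circle_eq]
    simp only [spec_eval, Polynomial.map_one, Polynomial.eval_one, norm_one, Real.log_one, sub_zero]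
  simp only [e1] at h2
  exact h2

/-- The bound in terms of the mean square, one variable. -/
theorem sq_bound (f : Polynomial ℤ) (hf : 1 < (f.map (Int.castRingHom ℂ)).mahlerMeasure) :
    LogVar.c0 / ((1 + LogVar.DD f 1) * Real.log (2 + LogVar.DD f 1) ^ 5) ≤
      Real.log (f.map (Int.castRingHom ℂ)).mahlerMeasure := by
  have hf0 : f ≠ 0 := by
    rintro rfl
    rw [Polynomial.map_zero, Polynomial.mahlerMeasure_zero] at hf
    linarith
  rcases LogVar.rigidity f 1 hf0 one_ne_zero with ⟨P, Q, hP, hQ, h⟩ | h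
  · exfalso
    have h1 : (f.map (Int.castRingHom ℂ)).mahlerMeasure *
        (P.map (Int.castRingHom ℂ)).mahlerMeasure =
        (Q.map (Int.castRingHom ℂ)).mahlerMeasure := by
      rw [← Polynomial.mahlerMeasure_mul, ← Polynomial.map_mul, h, one_mul]
    have hP' : (P.map (Int.castRingHom ℂ)).mahlerMeasure = 1 := hP
    have hQ' : (Q.map (Int.castRingHom ℂ)).mahlerMeasure = 1 := hQ
    rw [hP', hQ', mul_one] at h1
    linarith
  · have h3 : Real.log (LogVar.cx (1 : Polynomial ℤ)).mahlerMeasure = 0 := by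
      unfold LogVar.cx
      rw [Polynomial.map_one, Polynomial.mahlerMeasure_one, Real.log_one]
    rw [h3, add_zero] at h
    exact h

theorem one_lt_of_log {f : Polynomial ℤ}
    (h1 : 0 < Real.log (f.map (Int.castRingHom ℂ)).mahlerMeasure) :
    1 < (f.map (Int.castRingHom ℂ)).mahlerMeasure := by
  have h5 : 0 ≤ (f.map (Int.castRingHom ℂ)).mahlerMeasure := Polynomial.mahlerMeasure_nonneg _
  by_contra hcon
  exact absurd (Real.log_nonpos h5 (not_lt.mp hcon)) (not_le.mpr h1)

theorem ne_zero_of_logM {n : ℕ} {F : MvPolynomial (Fin n) ℤ} (hF : 0 < logM F) : F ≠ 0 := by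
  rintro rfl
  have h0 : logM (0 : MvPolynomial (Fin n) ℤ) = 0 := by
    unfold logM val
    simp
  rw [h0] at hF
  exact lt_irrefl _ hF

theorem ell_nonneg {n : ℕ} (F : MvPolynomial (Fin n) ℤ) : 0 ≤ ell F :=
  integral_nonneg fun _ => le_max_left _ _

theorem sqM_nonneg {n : ℕ} (F : MvPolynomial (Fin n) ℤ) : 0 ≤ sqM F :=
  integral_nonneg fun _ => sq_nonneg _

/-- The bound in terms of the number of terms and of the mean of `log⁺ |F|`. -/
theorem several_ell : ∃ c : ℝ, 0 < c ∧
    (∀ f : Polynomial ℤ, 1 < (f.map (Int.castRingHom ℂ)).mahlerMeasure →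
      c / (f.support.card * min (f.support.card : ℝ)
        (Real.log (f.support.card + 1) * (1 + ell1 f)) *
          Real.log (f.support.card + 1) ^ 5) ≤ Real.log (f.map (Int.castRingHom ℂ)).mahlerMeasure) ∧
    ∀ (n : ℕ) (F : MvPolynomial (Fin n) ℤ), 0 < logM F →
      c / (F.support.card * min (F.support.card : ℝ)
        (Real.log (F.support.card + 1) * (1 + ell F)) *
          Real.log (F.support.card + 1) ^ 5) ≤ logM F := by
  obtain ⟨c, hc, h⟩ := ell_bound
  refine ⟨c, hc, h, fun n F hF => ?_⟩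
  have hne := ne_zero_of_logM hF
  obtain ⟨-, hlim⟩ := boyd_lawton F hne
  have hk : 0 < F.support.card := Finset.card_pos.mpr (MvPolynomial.support_nonempty.mpr hne)
  have hk' : (1 : ℝ) ≤ F.support.card := by exact_mod_cast hk
  have hlk : 0 < Real.log ((F.support.card : ℝ) + 1) := Real.log_pos (by linarith)
  have hel := ell_nonneg F
  have hden : 0 < (F.support.card : ℝ) * min (F.support.card : ℝ)
        (Real.log (F.support.card + 1) * (1 + ell F)) *
          Real.log (F.support.card + 1) ^ 5 := by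
    have : 0 < min (F.support.card : ℝ) (Real.log (F.support.card + 1) * (1 + ell F)) :=
      lt_min (by linarith) (by positivity)
    positivity
  have hL : Tendsto (fun a : ℕ => c / (F.support.card * min (F.support.card : ℝ)
        (Real.log (F.support.card + 1) * (1 + ell1 (spec a F))) *
          Real.log (F.support.card + 1) ^ 5)) atTop
      (𝓝 (c / (F.support.card * min (F.support.card : ℝ)
        (Real.log (F.support.card + 1) * (1 + ell F)) *
          Real.log (F.support.card + 1) ^ 5))) := by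
    apply Tendsto.div tendsto_const_nhds _ hden.ne'
    apply Tendsto.mul _ tendsto_const_nhds
    apply Tendsto.mul tendsto_const_nhds
    apply Tendsto.min tendsto_const_nhds
    exact (tendsto_const_nhds.add (ell_tendsto F)).const_mul _
  refine le_of_tendsto_of_tendsto hL hlim ?_
  filter_upwards [hlim.eventually (lt_mem_nhds hF), spec_card F] with a h1 h2
  have h3 := h (spec a F) (one_lt_of_log h1)
  rw [h2] at h3
  exact h3

/-- The bound in terms of the mean of `(log |F|)²`. -/
theorem several_sq :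
    (∀ f : Polynomial ℤ, 1 < (f.map (Int.castRingHom ℂ)).mahlerMeasure →
      LogVar.c0 / ((1 + LogVar.DD f 1) * Real.log (2 + LogVar.DD f 1) ^ 5) ≤
        Real.log (f.map (Int.castRingHom ℂ)).mahlerMeasure) ∧
    ∀ (n : ℕ) (F : MvPolynomial (Fin n) ℤ), 0 < logM F →
      LogVar.c0 / ((1 + sqM F) * Real.log (2 + sqM F) ^ 5) ≤ logM F := by
  refine ⟨fun f hf => sq_bound f hf, fun n F hF => ?_⟩
  have hne := ne_zero_of_logM hF
  obtain ⟨-, hlim⟩ := boyd_lawton F hne
  obtain ⟨-, hsq⟩ := sq_tendsto F hne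
  have h0 := sqM_nonneg F
  have hlog : 0 < Real.log (2 + sqM F) := Real.log_pos (by linarith)
  have hL : Tendsto (fun a : ℕ => LogVar.c0 / ((1 + LogVar.DD (spec a F) 1) *
      Real.log (2 + LogVar.DD (spec a F) 1) ^ 5)) atTop
      (𝓝 (LogVar.c0 / ((1 + sqM F) * Real.log (2 + sqM F) ^ 5))) := by
    apply Tendsto.div tendsto_const_nhds _ (by positivity)
    apply Tendsto.mul (tendsto_const_nhds.add hsq)
    apply Tendsto.pow
    exact (Real.continuousAt_log (by linarith)).tendsto.comp (tendsto_const_nhds.add hsq)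
  refine le_of_tendsto_of_tendsto hL hlim ?_
  filter_upwards [hlim.eventually (lt_mem_nhds hF)] with a h1
  exact sq_bound (spec a F) (one_lt_of_log h1)

end Pool.Agent.Lib.MP_7ab245_nt.NV
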