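import Mathlib

/-!
# Truncation of the logarithm under a tail bound
-/

namespace Pool.Agent.Lib.MP_7ab245_nt.NV

open MeasureTheory Filter Topology

theorem trunc_sub {Ω : Type*} (g : Ω → ℂ) (y : ℝ) (hy : 0 < y) (t : ℝ) (ht : 0 < t) :
    {x | t < Real.log (max ‖g x‖ y) - Real.log ‖g x‖} ⊆ {x | ‖g x‖ < y * Real.exp (-t)} := by
  intro x hx
  simp only [Set.mem_ofPred_eq] at hx ⊢
  have he : 0 < y * Real.exp (-t) := mul_pos hy (Real.exp_pos _)
  rcases (norm_nonneg (g x)).eq_or_lt with h0 | h0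
  · rw [← h0]; exact he
  · rcases le_or_gt y ‖g x‖ with h | h
    · rw [max_eq_left h] at hx
      linarith
    · rw [max_eq_right h.le] at hx
      have h1 : Real.log ‖g x‖ < Real.log (y * Real.exp (-t)) := by
        rw [Real.log_mul hy.ne' (Real.exp_pos _).ne', Real.log_exp]
        linarith
      exact (Real.log_lt_log_iff h0 he).1 h1

theorem trunc_ne {Ω : Type*} [MeasurableSpace Ω] (ν : Measure Ω) (g : Ω → ℂ)
    (K κ : ℝ) (hκ : 0 < κ)
    (htail : ∀ y : ℝ, 0 < y → y ≤ 1 → ν {x | ‖g x‖ < y} ≤ ENNReal.ofReal (K * y ^ κ)) :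
    ∀ᵐ x ∂ν, 0 < ‖g x‖ := by
  have h0 : ν {x | ¬ 0 < ‖g x‖} = 0 := by
    refine le_antisymm ?_ zero_le
    have hlim : Tendsto (fun y : ℝ => ENNReal.ofReal (K * y ^ κ)) (𝓝[>] 0) (𝓝 0) := by
      have h1 : Tendsto (fun y : ℝ => K * y ^ κ) (𝓝[>] 0) (𝓝 (K * (0 : ℝ) ^ κ)) := by
        have h2 : ContinuousAt (fun y : ℝ => y ^ κ) 0 :=
          Real.continuousAt_rpow_const _ _ (Or.inr hκ.le)
        exact (h2.tendsto.mono_left nhdsWithin_le_nhds).const_mul K
      rw [Real.zero_rpow hκ.ne', mul_zero] at h1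
      have h3 := (ENNReal.continuous_ofReal.tendsto 0).comp h1
      rw [ENNReal.ofReal_zero] at h3
      exact h3
    refine ge_of_tendsto hlim ?_
    have hmem : Set.Ioc (0 : ℝ) 1 ∈ 𝓝[>] (0 : ℝ) := Ioc_mem_nhdsGT one_pos
    filter_upwards [hmem] with y hy
    refine le_trans (measure_mono ?_) (htail y hy.1 hy.2)
    intro x hx
    simp only [Set.mem_ofPred_eq, not_lt] at hx ⊢
    exact lt_of_le_of_lt hx hy.1
  exact h0

theorem trunc_lint {Ω : Type*} [MeasurableSpace Ω] (ν : Measure Ω) (g : Ω → ℂ)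
    (hg : Measurable g) (K κ : ℝ) (hκ : 0 < κ)
    (htail : ∀ y : ℝ, 0 < y → y ≤ 1 → ν {x | ‖g x‖ < y} ≤ ENNReal.ofReal (K * y ^ κ))
    (y : ℝ) (hy : 0 < y) (hy1 : y ≤ 1) :
    ∫⁻ x, ENNReal.ofReal (Real.log (max ‖g x‖ y) - Real.log ‖g x‖) ∂ν ≤
      ENNReal.ofReal (K * y ^ κ / κ) := by
  have hK : 0 ≤ K ∨ K < 0 := le_or_gt 0 K
  have hpos : 0 ≤ᵐ[ν] fun x => Real.log (max ‖g x‖ y) - Real.log ‖g x‖ := by
    filter_upwards [trunc_ne ν g K κ hκ htail] with x hx
    have := Real.log_le_log hx (le_max_left ‖g x‖ y)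
    simp only [Pi.zero_apply]
    linarith
  have hmeas : Measurable fun x => Real.log (max ‖g x‖ y) - Real.log ‖g x‖ :=
    (Real.measurable_log.comp (hg.norm.max measurable_const)).sub
      (Real.measurable_log.comp hg.norm)
  rw [lintegral_eq_lintegral_meas_lt ν hpos hmeas.aemeasurable]
  have h1 : ∫⁻ t in Set.Ioi (0 : ℝ),
      ν {x | t < Real.log (max ‖g x‖ y) - Real.log ‖g x‖} ≤
      ∫⁻ t in Set.Ioi (0 : ℝ), ENNReal.ofReal (K * y ^ κ * Real.exp (-κ * t)) := by
    refine setLIntegral_mono' measurableSet_Ioi fun t ht => ?_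
    have ht' : 0 < t := ht
    refine le_trans (measure_mono (trunc_sub g y hy t ht')) ?_
    have he : Real.exp (-t) ≤ 1 := Real.exp_le_one_iff.2 (by linarith)
    refine le_trans (htail _ (mul_pos hy (Real.exp_pos _))
      (mul_le_one₀ hy1 (Real.exp_pos _).le he)) ?_
    refine le_of_eq ?_
    congr 1
    rw [Real.mul_rpow hy.le (Real.exp_pos _).le, ← Real.exp_mul, mul_assoc]
    congr 3
    ring
  refine le_trans h1 ?_
  rcases hK with hK | hK
  · have hint : IntegrableOn (fun t : ℝ => K * y ^ κ * Real.exp (-κ * t)) (Set.Ioi 0) :=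
      (integrableOn_exp_mul_Ioi (by linarith : -κ < 0) 0).const_mul _
    rw [← ofReal_integral_eq_lintegral_ofReal hint]
    · refine ENNReal.ofReal_le_ofReal (le_of_eq ?_)
      rw [integral_const_mul, integral_exp_mul_Ioi (by linarith : -κ < 0) 0]
      simp only [mul_zero, Real.exp_zero]
      field_simp
    · refine Eventually.of_forall fun t => ?_
      have := Real.rpow_nonneg hy.le κ
      simp only [Pi.zero_apply]
      positivity
  · have hz : ∀ t : ℝ, ENNReal.ofReal (K * y ^ κ * Real.exp (-κ * t)) = 0 := by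
      intro t
      refine ENNReal.ofReal_eq_zero.2 ?_
      have h2 : 0 < y ^ κ := Real.rpow_pos_of_pos hy κ
      have h3 := Real.exp_pos (-κ * t)
      have h4 : K * y ^ κ < 0 := mul_neg_of_neg_of_pos hK h2
      exact (mul_neg_of_neg_of_pos h4 h3).le
    simp only [hz, lintegral_zero]
    exact zero_le

/-- Truncation error of the logarithm under a tail bound. -/
theorem trunc {Ω : Type*} [MeasurableSpace Ω] (ν : Measure Ω) [IsFiniteMeasure ν] (g : Ω → ℂ)
    (hg : Measurable g) (B : ℝ) (hB : ∀ x, ‖g x‖ ≤ B) (K κ : ℝ) (hκ : 0 < κ)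
    (hK : 0 ≤ K)
    (htail : ∀ y : ℝ, 0 < y → y ≤ 1 → ν {x | ‖g x‖ < y} ≤ ENNReal.ofReal (K * y ^ κ)) :
    Integrable (fun x => Real.log ‖g x‖) ν ∧
    ∀ y : ℝ, 0 < y → y ≤ 1 →
      ∫ x, Real.log ‖g x‖ ∂ν ≤ ∫ x, Real.log (max ‖g x‖ y) ∂ν ∧
      ∫ x, Real.log (max ‖g x‖ y) ∂ν ≤ ∫ x, Real.log ‖g x‖ ∂ν + K * y ^ κ / κ := by
  have hmm : ∀ y : ℝ, Measurable fun x => Real.log (max ‖g x‖ y) := fun y =>
    Real.measurable_log.comp (hg.norm.max measurable_const)
  have hmint : ∀ y : ℝ, 0 < y → Integrable (fun x => Real.log (max ‖g x‖ y)) ν := by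
    intro y hy
    refine Integrable.of_bound (hmm y).aestronglyMeasurable
      (|Real.log y| + |Real.log (max B y)|) (Eventually.of_forall fun x => ?_)
    have h1 : Real.log y ≤ Real.log (max ‖g x‖ y) := Real.log_le_log hy (le_max_right _ _)
    have h2 : Real.log (max ‖g x‖ y) ≤ Real.log (max B y) :=
      Real.log_le_log (lt_of_lt_of_le hy (le_max_right _ _)) (max_le_max (hB x) le_rfl)
    rw [Real.norm_eq_abs, abs_le]
    constructor
    · have := neg_abs_le (Real.log y)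
      have := abs_nonneg (Real.log (max B y))
      linarith
    · have := le_abs_self (Real.log (max B y))
      have := abs_nonneg (Real.log y)
      linarith
  have hne := trunc_ne ν g K κ hκ htail
  have hpos : ∀ y : ℝ, 0 ≤ᵐ[ν] fun x => Real.log (max ‖g x‖ y) - Real.log ‖g x‖ := by
    intro y
    filter_upwards [hne] with x hx
    have := Real.log_le_log hx (le_max_left ‖g x‖ y)
    simp only [Pi.zero_apply]
    linarith
  have hdm : ∀ y : ℝ, Measurable fun x => Real.log (max ‖g x‖ y) - Real.log ‖g x‖ := fun y =>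
    (hmm y).sub (Real.measurable_log.comp hg.norm)
  have hdint : ∀ y : ℝ, 0 < y → y ≤ 1 →
      Integrable (fun x => Real.log (max ‖g x‖ y) - Real.log ‖g x‖) ν := by
    intro y hy hy1
    refine (lintegral_ofReal_ne_top_iff_integrable (hdm y).aestronglyMeasurable (hpos y)).1 ?_
    exact ne_top_of_le_ne_top ENNReal.ofReal_ne_top
      (trunc_lint ν g hg K κ hκ htail y hy hy1)
  have hint : Integrable (fun x => Real.log ‖g x‖) ν := by
    have := (hmint 1 one_pos).sub (hdint 1 one_pos le_rfl)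
    refine this.congr (Eventually.of_forall fun x => ?_)
    simp
  refine ⟨hint, fun y hy hy1 => ?_⟩
  have hsub : ∫ x, (Real.log (max ‖g x‖ y) - Real.log ‖g x‖) ∂ν =
      ∫ x, Real.log (max ‖g x‖ y) ∂ν - ∫ x, Real.log ‖g x‖ ∂ν :=
    integral_sub (hmint y hy) hint
  have h1 : 0 ≤ ∫ x, (Real.log (max ‖g x‖ y) - Real.log ‖g x‖) ∂ν :=
    integral_nonneg_of_ae (hpos y)
  have h2 : ∫ x, (Real.log (max ‖g x‖ y) - Real.log ‖g x‖) ∂ν ≤ K * y ^ κ / κ := by
    rw [integral_eq_lintegral_of_nonneg_ae (hpos y) (hdm y).aestronglyMeasurable]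
    refine ENNReal.toReal_le_of_le_ofReal ?_ (trunc_lint ν g hg K κ hκ htail y hy hy1)
    have := Real.rpow_nonneg hy.le κ
    positivity
  constructor <;> linarith

end Pool.Agent.Lib.MP_7ab245_nt.NV
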