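import Pool.Agent.Lib.MP_7ab245_nt.NV.Trunc

/-!
# Truncation of the square of the logarithm under a tail bound
-/

set_option autoImplicit false

namespace Pool.Agent.Lib.MP_7ab245_nt.NV

open MeasureTheory Filter Topology

/-- the second moment of the truncation error -/
theorem trunc_sq {Ω : Type*} [MeasurableSpace Ω] (ν : Measure Ω) (g : Ω → ℂ)
    (hg : Measurable g) (K κ : ℝ) (hκ : 0 < κ) (hK : 0 ≤ K)
    (htail : ∀ y : ℝ, 0 < y → y ≤ 1 → ν {x | ‖g x‖ < y} ≤ ENNReal.ofReal (K * y ^ κ))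
    (y : ℝ) (hy : 0 < y) (hy1 : y ≤ 1) :
    ∫⁻ x, ENNReal.ofReal ((Real.log (max ‖g x‖ y) - Real.log ‖g x‖) ^ 2) ∂ν ≤
      ENNReal.ofReal (2 * (K * y ^ κ / κ ^ 2)) := by
  have hpos : 0 ≤ᵐ[ν] fun x => Real.log (max ‖g x‖ y) - Real.log ‖g x‖ := by
    filter_upwards [trunc_ne ν g K κ hκ htail] with x hx
    have := Real.log_le_log hx (le_max_left ‖g x‖ y)
    simp only [Pi.zero_apply]
    linarith
  have hmeas : Measurable fun x => Real.log (max ‖g x‖ y) - Real.log ‖g x‖ :=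
    (Real.measurable_log.comp (hg.norm.max measurable_const)).sub
      (Real.measurable_log.comp hg.norm)
  have h0 := lintegral_rpow_eq_lintegral_meas_lt_mul ν hpos hmeas.aemeasurable (p := 2) two_pos
  have h2 : ∀ x, (Real.log (max ‖g x‖ y) - Real.log ‖g x‖) ^ (2 : ℝ) =
      (Real.log (max ‖g x‖ y) - Real.log ‖g x‖) ^ 2 := by
    intro x
    exact_mod_cast Real.rpow_natCast (Real.log (max ‖g x‖ y) - Real.log ‖g x‖) 2
  simp only [h2] at h0
  rw [h0, ENNReal.ofReal_mul (by norm_num : (0 : ℝ) ≤ 2)]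
  apply mul_le_mul_right
  have hyκ : 0 < y ^ κ := Real.rpow_pos_of_pos hy κ
  have h1 : ∫⁻ t in Set.Ioi (0 : ℝ),
      ν {x | t < Real.log (max ‖g x‖ y) - Real.log ‖g x‖} * ENNReal.ofReal (t ^ ((2 : ℝ) - 1)) ≤
      ∫⁻ t in Set.Ioi (0 : ℝ), ENNReal.ofReal (K * y ^ κ * (t ^ ((2 : ℝ) - 1) *
        Real.exp (-(κ * t)))) := by
    refine setLIntegral_mono' measurableSet_Ioi fun t ht => ?_
    have ht' : 0 < t := ht
    have he : Real.exp (-t) ≤ 1 := Real.exp_le_one_iff.2 (by linarith)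
    have h3 : ν {x | t < Real.log (max ‖g x‖ y) - Real.log ‖g x‖} ≤
        ENNReal.ofReal (K * y ^ κ * Real.exp (-(κ * t))) := by
      refine le_trans (measure_mono (trunc_sub g y hy t ht')) ?_
      refine le_trans (htail _ (mul_pos hy (Real.exp_pos _))
        (mul_le_one₀ hy1 (Real.exp_pos _).le he)) ?_
      refine le_of_eq ?_
      congr 1
      rw [Real.mul_rpow hy.le (Real.exp_pos _).le, ← Real.exp_mul, mul_assoc]
      congr 3
      ring
    refine (mul_le_mul_left h3 _).trans ?_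
    rw [← ENNReal.ofReal_mul (by positivity)]
    refine le_of_eq ?_
    congr 1
    ring
  refine h1.trans ?_
  have hint : IntegrableOn (fun t : ℝ => K * y ^ κ * (t ^ ((2 : ℝ) - 1) *
      Real.exp (-(κ * t)))) (Set.Ioi 0) := by
    have h4 := integrableOn_rpow_mul_exp_neg_mul_rpow (s := 2 - 1) (p := 1) (b := κ)
      (by norm_num) one_pos hκ
    refine (h4.congr_fun (fun t _ => ?_) measurableSet_Ioi).const_mul _
    simp
  rw [← ofReal_integral_eq_lintegral_ofReal hint]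
  · refine ENNReal.ofReal_le_ofReal (le_of_eq ?_)
    rw [integral_const_mul, Real.integral_rpow_mul_exp_neg_mul_Ioi two_pos hκ, Real.Gamma_two]
    have : (1 / κ) ^ (2 : ℝ) = 1 / κ ^ 2 := by
      rw [Real.rpow_two]
      field_simp
    rw [this]
    ring
  · refine (ae_restrict_iff' measurableSet_Ioi).2 (Eventually.of_forall fun t ht => ?_)
    have ht' : 0 < t := ht
    simp only [Pi.zero_apply]
    positivity

/-- Truncation error of the square of the logarithm under a tail bound. -/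
theorem trunc2 {Ω : Type*} [MeasurableSpace Ω] (ν : Measure Ω) [IsFiniteMeasure ν] (g : Ω → ℂ)
    (hg : Measurable g) (B : ℝ) (hB : ∀ x, ‖g x‖ ≤ B) (K κ : ℝ) (hκ : 0 < κ)
    (hK : 0 ≤ K)
    (htail : ∀ y : ℝ, 0 < y → y ≤ 1 → ν {x | ‖g x‖ < y} ≤ ENNReal.ofReal (K * y ^ κ)) :
    Integrable (fun x => Real.log ‖g x‖ ^ 2) ν ∧
    ∀ y : ℝ, 0 < y → y ≤ 1 →
      ∫ x, Real.log (max ‖g x‖ y) ^ 2 ∂ν ≤ ∫ x, Real.log ‖g x‖ ^ 2 ∂ν ∧
      ∫ x, Real.log ‖g x‖ ^ 2 ∂ν ≤ ∫ x, Real.log (max ‖g x‖ y) ^ 2 ∂ν +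
        K * y ^ κ * (2 / κ ^ 2 + 2 * (-Real.log y) / κ) := by
  obtain ⟨hI, hT⟩ := trunc ν g hg B hB K κ hκ hK htail
  have hmm : ∀ y : ℝ, Measurable fun x => Real.log (max ‖g x‖ y) := fun y =>
    Real.measurable_log.comp (hg.norm.max measurable_const)
  have hbd : ∀ y : ℝ, 0 < y → ∀ x, |Real.log (max ‖g x‖ y)| ≤
      |Real.log y| + |Real.log (max B y)| := by
    intro y hy x
    have h1 : Real.log y ≤ Real.log (max ‖g x‖ y) := Real.log_le_log hy (le_max_right _ _)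
    have h2 : Real.log (max ‖g x‖ y) ≤ Real.log (max B y) :=
      Real.log_le_log (lt_of_lt_of_le hy (le_max_right _ _)) (max_le_max (hB x) le_rfl)
    rw [abs_le]
    constructor
    · have := neg_abs_le (Real.log y)
      have := abs_nonneg (Real.log (max B y))
      linarith
    · have := le_abs_self (Real.log (max B y))
      have := abs_nonneg (Real.log y)
      linarith
  have hmint : ∀ y : ℝ, 0 < y → Integrable (fun x => Real.log (max ‖g x‖ y)) ν := by
    intro y hy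
    exact Integrable.of_bound (hmm y).aestronglyMeasurable _ (Eventually.of_forall (hbd y hy))
  have hmint2 : ∀ y : ℝ, 0 < y → Integrable (fun x => Real.log (max ‖g x‖ y) ^ 2) ν := by
    intro y hy
    refine Integrable.of_bound ((hmm y).pow_const 2).aestronglyMeasurable
      ((|Real.log y| + |Real.log (max B y)|) ^ 2) (Eventually.of_forall fun x => ?_)
    rw [Real.norm_eq_abs, abs_pow]
    exact pow_le_pow_left₀ (abs_nonneg _) (hbd y hy x) 2
  have hdm : ∀ y : ℝ, Measurable fun x => Real.log (max ‖g x‖ y) - Real.log ‖g x‖ := fun y =>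
    (hmm y).sub (Real.measurable_log.comp hg.norm)
  have hd2 : ∀ y : ℝ, 0 < y → y ≤ 1 →
      Integrable (fun x => (Real.log (max ‖g x‖ y) - Real.log ‖g x‖) ^ 2) ν ∧
      ∫ x, (Real.log (max ‖g x‖ y) - Real.log ‖g x‖) ^ 2 ∂ν ≤ 2 * (K * y ^ κ / κ ^ 2) := by
    intro y hy hy1
    have hl := trunc_sq ν g hg K κ hκ hK htail y hy hy1
    have hnn : 0 ≤ᵐ[ν] fun x => (Real.log (max ‖g x‖ y) - Real.log ‖g x‖) ^ 2 :=
      Eventually.of_forall fun x => sq_nonneg _
    have hms := ((hdm y).pow_const 2).aestronglyMeasurable (μ := ν)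
    refine ⟨(lintegral_ofReal_ne_top_iff_integrable hms hnn).1
      (ne_top_of_le_ne_top ENNReal.ofReal_ne_top hl), ?_⟩
    rw [integral_eq_lintegral_of_nonneg_ae hnn hms]
    refine ENNReal.toReal_le_of_le_ofReal ?_ hl
    have := Real.rpow_nonneg hy.le κ
    positivity
  have key : ∀ y : ℝ, 0 < y → ∀ x, Real.log ‖g x‖ ^ 2 = Real.log (max ‖g x‖ y) ^ 2 +
      2 * (-Real.log y) * (Real.log (max ‖g x‖ y) - Real.log ‖g x‖) +
      (Real.log (max ‖g x‖ y) - Real.log ‖g x‖) ^ 2 := by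
    intro y _ x
    rcases le_total y ‖g x‖ with h | h
    · rw [max_eq_left h]
      ring
    · rw [max_eq_right h]
      ring
  have hint2 : Integrable (fun x => Real.log ‖g x‖ ^ 2) ν := by
    have h1 := ((hmint2 1 one_pos).add (((hmint 1 one_pos).sub hI).const_mul
      (2 * (-Real.log 1)))).add (hd2 1 one_pos le_rfl).1
    refine h1.congr (Eventually.of_forall fun x => ?_)
    exact (key 1 one_pos x).symm
  refine ⟨hint2, fun y hy hy1 => ?_⟩
  have hsub : ∫ x, (Real.log (max ‖g x‖ y) - Real.log ‖g x‖) ∂ν =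
      ∫ x, Real.log (max ‖g x‖ y) ∂ν - ∫ x, Real.log ‖g x‖ ∂ν :=
    integral_sub (hmint y hy) hI
  have hall : ∫ x, Real.log ‖g x‖ ^ 2 ∂ν = ∫ x, Real.log (max ‖g x‖ y) ^ 2 ∂ν +
      2 * (-Real.log y) * ∫ x, (Real.log (max ‖g x‖ y) - Real.log ‖g x‖) ∂ν +
      ∫ x, (Real.log (max ‖g x‖ y) - Real.log ‖g x‖) ^ 2 ∂ν := by
    have i1 : Integrable (fun x => 2 * (-Real.log y) *
        (Real.log (max ‖g x‖ y) - Real.log ‖g x‖)) ν := ((hmint y hy).sub hI).const_mul _
    have i2 : Integrable (fun x => Real.log (max ‖g x‖ y) ^ 2 + 2 * (-Real.log y) *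
        (Real.log (max ‖g x‖ y) - Real.log ‖g x‖)) ν := (hmint2 y hy).add i1
    rw [← integral_const_mul, ← integral_add (hmint2 y hy) i1, ← integral_add i2 (hd2 y hy hy1).1]
    exact integral_congr_ae (Eventually.of_forall fun x => key y hy x)
  have hly : 0 ≤ -Real.log y := by
    have := Real.log_nonpos hy.le hy1
    linarith
  have h3 := hT y hy hy1
  have h4 : 0 ≤ ∫ x, (Real.log (max ‖g x‖ y) - Real.log ‖g x‖) ^ 2 ∂ν :=
    integral_nonneg fun x => sq_nonneg _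
  have h5 := (hd2 y hy hy1).2
  constructor
  · rw [hall, hsub]
    have : 0 ≤ 2 * (-Real.log y) * (∫ x, Real.log (max ‖g x‖ y) ∂ν - ∫ x, Real.log ‖g x‖ ∂ν) :=
      mul_nonneg (by linarith) (by linarith [h3.1])
    linarith
  · rw [hall, hsub]
    have h6 : 2 * (-Real.log y) * (∫ x, Real.log (max ‖g x‖ y) ∂ν - ∫ x, Real.log ‖g x‖ ∂ν) ≤
        2 * (-Real.log y) * (K * y ^ κ / κ) :=
      mul_le_mul_of_nonneg_left (by linarith [h3.2]) (by linarith)
    have h7 : K * y ^ κ * (2 / κ ^ 2 + 2 * (-Real.log y) / κ) =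
        2 * (K * y ^ κ / κ ^ 2) + 2 * (-Real.log y) * (K * y ^ κ / κ) := by
      field_simp
    linarith

end Pool.Agent.Lib.MP_7ab245_nt.NV
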