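import Mathlib

/-!
# Equidistribution of `s ↦ (s, a s, a² s, ...)` on the torus as `a → ∞` (helper3)
-/

set_option autoImplicit false

namespace Pool.Agent.Lib.MP_7ab245_nt.NV

open MeasureTheory Filter Topology

/-- the measure on the torus -/
noncomputable def muT (n : ℕ) : Measure (UnitAddTorus (Fin n)) :=
  Measure.pi fun _ : Fin n => (AddCircle.haarAddCircle : Measure UnitAddCircle)

instance probT (n : ℕ) : IsProbabilityMeasure (muT n) := by
  unfold muT
  infer_instance

/-- the point `(s, a s, a² s, ...)` -/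
def line (n a : ℕ) (s : ℝ) : UnitAddTorus (Fin n) :=
  fun i => (((a : ℝ) ^ (i : ℕ) * s : ℝ) : UnitAddCircle)

theorem line_cont (n a : ℕ) : Continuous (line n a) := by
  refine continuous_pi fun i => ?_
  exact (AddCircle.continuous_mk' 1).comp (by fun_prop)

/-- the integral of a monomial over the torus -/
theorem int_mono {n : ℕ} (m : Fin n → ℤ) :
    ∫ x, UnitAddTorus.mFourier m x ∂(muT n) = if m = 0 then 1 else 0 := by
  split_ifs with h
  · subst h
    rw [UnitAddTorus.mFourier_zero]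
    simp
  · obtain ⟨i, hi⟩ := Function.ne_iff.mp h
    have h1 : ∫ x, UnitAddTorus.mFourier m x ∂(muT n) =
        ∏ i, ∫ x : UnitAddCircle, fourier (m i) x ∂AddCircle.haarAddCircle := by
      unfold muT
      exact integral_fintype_prod_eq_prod (fun i (x : UnitAddCircle) => (fourier (m i) x : ℂ))
    rw [h1]
    refine Finset.prod_eq_zero (Finset.mem_univ i) ?_
    exact integral_eq_zero_of_add_right_eq_neg (μ := AddCircle.haarAddCircle)
      (fourier_add_half_inv_index hi zero_lt_one)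

/-- the frequency of a monomial on the line -/
def freq {n : ℕ} (m : Fin n → ℤ) (a : ℕ) : ℤ := ∑ i, m i * (a : ℤ) ^ (i : ℕ)

theorem mono_line {n : ℕ} (m : Fin n → ℤ) (a : ℕ) (s : ℝ) :
    UnitAddTorus.mFourier m (line n a s) =
      Complex.exp ((2 * Real.pi * Complex.I * freq m a) * s) := by
  have h1 : UnitAddTorus.mFourier m (line n a s) =
      ∏ i, Complex.exp (2 * Real.pi * Complex.I * (m i) * (((a : ℝ) ^ (i : ℕ) * s : ℝ) : ℂ) /
        ((1 : ℝ) : ℂ)) := by
    unfold UnitAddTorus.mFourier line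
    rw [ContinuousMap.coe_mk]
    exact Finset.prod_congr rfl fun i _ => fourier_coe_apply
  rw [h1, ← Complex.exp_sum]
  congr 1
  unfold freq
  push_cast
  rw [Finset.mul_sum, Finset.sum_mul]
  refine Finset.sum_congr rfl fun i _ => ?_
  ring

theorem int_line {n : ℕ} (m : Fin n → ℤ) (a : ℕ) :
    ∫ s in (0 : ℝ)..1, UnitAddTorus.mFourier m (line n a s) = if freq m a = 0 then 1 else 0 := by
  simp_rw [mono_line]
  split_ifs with h
  · rw [h]
    simp
  · have hc : (2 * Real.pi * Complex.I * freq m a : ℂ) ≠ 0 := by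
      have h1 : ((freq m a : ℤ) : ℂ) ≠ 0 := by exact_mod_cast h
      have h2 : (Real.pi : ℂ) ≠ 0 := by exact_mod_cast Real.pi_ne_zero
      exact mul_ne_zero (mul_ne_zero (mul_ne_zero two_ne_zero h2) Complex.I_ne_zero) h1
    rw [integral_exp_mul_complex hc]
    have h3 : Complex.exp (2 * Real.pi * Complex.I * freq m a * ((1 : ℝ) : ℂ)) = 1 := by
      rw [Complex.exp_eq_one_iff]
      exact ⟨freq m a, by push_cast; ring⟩
    rw [h3]
    simp

theorem freq_ne {n : ℕ} (m : Fin n → ℤ) (hm : m ≠ 0) : ∀ᶠ a : ℕ in atTop, freq m a ≠ 0 := by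
  obtain ⟨P, hP⟩ : ∃ P : Polynomial ℤ, P = ∑ i, Polynomial.C (m i) * Polynomial.X ^ (i : ℕ) :=
    ⟨_, rfl⟩
  have hcoef : ∀ j : Fin n, P.coeff j = m j := by
    intro j
    rw [hP, Polynomial.finsetSum_coeff]
    rw [Finset.sum_eq_single j]
    · rw [Polynomial.coeff_C_mul, Polynomial.coeff_X_pow, if_pos rfl, mul_one]
    · intro i _ hij
      rw [Polynomial.coeff_C_mul, Polynomial.coeff_X_pow, if_neg, mul_zero]
      intro h
      exact hij (Fin.ext h.symm)
    · intro h
      exact absurd (Finset.mem_univ j) h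
  have hP0 : P ≠ 0 := by
    intro h
    apply hm
    ext j
    rw [← hcoef j, h]
    simp
  have heval : ∀ a : ℕ, P.eval (a : ℤ) = freq m a := by
    intro a
    rw [hP, Polynomial.eval_finsetSum]
    unfold freq
    refine Finset.sum_congr rfl fun i _ => ?_
    simp
  have hfin : {a : ℕ | freq m a = 0}.Finite := by
    have h1 : {x : ℤ | P.IsRoot x}.Finite := Polynomial.finite_setOfPred_isRoot hP0
    refine Set.Finite.of_finite_image (f := fun a : ℕ => (a : ℤ)) (h1.subset ?_)
      (fun a _ b _ h => Int.ofNat_inj.1 h)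
    rintro _ ⟨a, ha, rfl⟩
    rw [Set.mem_ofPred_eq, Polynomial.IsRoot.def, heval]
    exact ha
  have := hfin.compl_mem_cofinite
  rw [Nat.cofinite_eq_atTop] at this
  exact this

/-- Weak convergence on the torus, for continuous functions on `(ℝ/ℤ)ⁿ`. -/
theorem weak_torus_aux {n : ℕ} (φ : C(UnitAddTorus (Fin n), ℂ)) :
    Tendsto (fun a : ℕ => ∫ s in (0 : ℝ)..1, φ (line n a s)) atTop
      (𝓝 (∫ x, φ x ∂(muT n))) := by
  have hintL : ∀ (ψ : C(UnitAddTorus (Fin n), ℂ)) (a : ℕ),
      IntervalIntegrable (fun s => ψ (line n a s)) volume 0 1 := fun ψ a =>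
    (ψ.continuous.comp (line_cont n a)).intervalIntegrable 0 1
  have hintT : ∀ (ψ : C(UnitAddTorus (Fin n), ℂ)), Integrable (fun x => ψ x) (muT n) := fun ψ =>
    ψ.continuous.integrable_of_hasCompactSupport (HasCompactSupport.of_compactSpace _)
  -- the span of the monomials
  have hspan : ∀ ψ ∈ Submodule.span ℂ (Set.range (UnitAddTorus.mFourier (d := Fin n))),
      Tendsto (fun a : ℕ => ∫ s in (0 : ℝ)..1, ψ (line n a s)) atTop
        (𝓝 (∫ x, ψ x ∂(muT n))) := by
    intro ψ hψ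
    induction hψ using Submodule.span_induction with
    | mem x hx =>
      obtain ⟨m, rfl⟩ := hx
      rw [int_mono]
      simp_rw [int_line]
      split_ifs with h
      · subst h
        refine tendsto_const_nhds.congr fun a => ?_
        rw [if_pos]
        simp [freq]
      · refine tendsto_const_nhds.congr' ?_
        filter_upwards [freq_ne m h] with a ha
        rw [if_neg ha]
    | zero => simp
    | add x y _ _ hx hy =>
      have h1 : ∀ a : ℕ, ∫ s in (0 : ℝ)..1, (x + y) (line n a s) =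
          (∫ s in (0 : ℝ)..1, x (line n a s)) + ∫ s in (0 : ℝ)..1, y (line n a s) := fun a =>
        intervalIntegral.integral_add (hintL x a) (hintL y a)
      have h2 : ∫ z, (x + y) z ∂(muT n) = (∫ z, x z ∂(muT n)) + ∫ z, y z ∂(muT n) :=
        integral_add (hintT x) (hintT y)
      rw [h2]
      simp_rw [h1]
      exact hx.add hy
    | smul c x _ hx =>
      have h1 : ∀ a : ℕ, ∫ s in (0 : ℝ)..1, (c • x) (line n a s) =
          c * ∫ s in (0 : ℝ)..1, x (line n a s) := fun a =>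
        intervalIntegral.integral_const_mul c _
      have h2 : ∫ z, (c • x) z ∂(muT n) = c * ∫ z, x z ∂(muT n) := integral_const_mul c _
      rw [h2]
      simp_rw [h1]
      exact hx.const_mul c
  rw [Metric.tendsto_atTop]
  intro ε hε
  have hmem : φ ∈ (Submodule.span ℂ
      (Set.range (UnitAddTorus.mFourier (d := Fin n)))).topologicalClosure := by
    rw [UnitAddTorus.span_mFourier_closure_eq_top]
    exact Submodule.mem_top
  have hmem2 : φ ∈ closure ((Submodule.span ℂ
      (Set.range (UnitAddTorus.mFourier (d := Fin n))) : Set (C(UnitAddTorus (Fin n), ℂ)))) := hmem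
  obtain ⟨ψ, hψ, hdist⟩ := Metric.mem_closure_iff.1 hmem2 (ε / 4) (by positivity)
  obtain ⟨N, hN⟩ := Metric.tendsto_atTop.1 (hspan ψ hψ) (ε / 4) (by positivity)
  refine ⟨N, fun a ha => ?_⟩
  have hpt : ∀ x, ‖φ x - ψ x‖ ≤ ε / 4 := by
    intro x
    have h1 := ContinuousMap.dist_apply_le_dist (f := φ) (g := ψ) x
    rw [dist_eq_norm] at h1
    linarith
  have hA : ‖(∫ s in (0 : ℝ)..1, φ (line n a s)) - ∫ s in (0 : ℝ)..1, ψ (line n a s)‖ ≤
      ε / 4 := by
    rw [← intervalIntegral.integral_sub (hintL φ a) (hintL ψ a)]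
    have h1 := intervalIntegral.norm_integral_le_of_norm_le_const (a := (0 : ℝ)) (b := 1)
      (C := ε / 4) (f := fun s => φ (line n a s) - ψ (line n a s)) (fun s _ => hpt _)
    rw [sub_zero, abs_one, mul_one] at h1
    exact h1
  have hB : ‖(∫ x, φ x ∂(muT n)) - ∫ x, ψ x ∂(muT n)‖ ≤ ε / 4 := by
    rw [← integral_sub (hintT φ) (hintT ψ)]
    have h1 := norm_integral_le_of_norm_le_const (μ := muT n) (C := ε / 4)
      (f := fun x => φ x - ψ x) (Eventually.of_forall hpt)
    rw [probReal_univ, mul_one] at h1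
    exact h1
  have hC := hN a ha
  rw [dist_eq_norm] at hC ⊢
  calc ‖(∫ s in (0 : ℝ)..1, φ (line n a s)) - ∫ x, φ x ∂(muT n)‖
      = ‖((∫ s in (0 : ℝ)..1, φ (line n a s)) - ∫ s in (0 : ℝ)..1, ψ (line n a s)) +
        ((∫ s in (0 : ℝ)..1, ψ (line n a s)) - ∫ x, ψ x ∂(muT n)) -
        ((∫ x, φ x ∂(muT n)) - ∫ x, ψ x ∂(muT n))‖ := by
          congr 1
          ring
    _ ≤ ‖((∫ s in (0 : ℝ)..1, φ (line n a s)) - ∫ s in (0 : ℝ)..1, ψ (line n a s)) +
        ((∫ s in (0 : ℝ)..1, ψ (line n a s)) - ∫ x, ψ x ∂(muT n))‖ +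
        ‖(∫ x, φ x ∂(muT n)) - ∫ x, ψ x ∂(muT n)‖ := norm_sub_le _ _
    _ ≤ ‖(∫ s in (0 : ℝ)..1, φ (line n a s)) - ∫ s in (0 : ℝ)..1, ψ (line n a s)‖ +
        ‖(∫ s in (0 : ℝ)..1, ψ (line n a s)) - ∫ x, ψ x ∂(muT n)‖ +
        ‖(∫ x, φ x ∂(muT n)) - ∫ x, ψ x ∂(muT n)‖ := by
          have := norm_add_le ((∫ s in (0 : ℝ)..1, φ (line n a s)) -
            ∫ s in (0 : ℝ)..1, ψ (line n a s))
            ((∫ s in (0 : ℝ)..1, ψ (line n a s)) - ∫ x, ψ x ∂(muT n))
          linarith
    _ < ε := by linarith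

/-- Weak convergence on the torus, for continuous functions on `(ℝ/ℤ)ⁿ`. -/
theorem weak_torus {n : ℕ} (φ : C(UnitAddTorus (Fin n), ℂ)) :
    Tendsto (fun a : ℕ => ∫ s in (0 : ℝ)..1,
        φ (fun i => (((a : ℝ) ^ (i : ℕ) * s : ℝ) : UnitAddCircle))) atTop
      (𝓝 (∫ x, φ x ∂(Measure.pi fun _ : Fin n =>
        (AddCircle.haarAddCircle : Measure UnitAddCircle)))) :=
  weak_torus_aux φ

end Pool.Agent.Lib.MP_7ab245_nt.NV
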