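import Pool.Agent.Lib.MP_7ab245_nt.NV.Defs
import Pool.Agent.Lib.MP_7ab245_nt.NV.WeakT

/-!
# Equidistribution of `s ↦ (s, a s, a² s, ...)` on the torus as `a → ∞`
-/

set_option autoImplicit false

namespace Pool.Agent.Lib.MP_7ab245_nt.NV

open MeasureTheory Filter Topology

theorem cube_eq (n : ℕ) :
    cube n = {x : Fin n → ℝ | ∀ i, x i ∈ Set.Ioc ((0 : Fin n → ℝ) i) ((0 : Fin n → ℝ) i + 1)} := by
  ext x
  simp [cube]

theorem int_cube {n : ℕ} (φ : (Fin n → UnitAddCircle) → ℂ) :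
    ∫ x, φ x ∂(Measure.pi fun _ : Fin n =>
        (AddCircle.haarAddCircle : Measure UnitAddCircle)) =
      ∫ θ in cube n, φ (fun i => (θ i : UnitAddCircle)) := by
  have h := UnitAddTorus.integral_preimage (d := Fin n) (E := ℂ) φ 0
  rw [← cube_eq] at h
  exact h

/-- the value on the torus -/
noncomputable def valT {n : ℕ} (F : MvPolynomial (Fin n) ℤ) (x : Fin n → UnitAddCircle) : ℂ :=
  MvPolynomial.aeval (fun j => (fourier 1 (x j) : ℂ)) F

theorem valT_cont {n : ℕ} (F : MvPolynomial (Fin n) ℤ) : Continuous (valT F) := by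
  unfold valT
  simp only [MvPolynomial.aeval_def, MvPolynomial.eval₂_eq']
  fun_prop

theorem valT_coe {n : ℕ} (F : MvPolynomial (Fin n) ℤ) (θ : Fin n → ℝ) :
    valT F (fun i => (θ i : UnitAddCircle)) = val F θ := by
  unfold valT val
  congr 2
  funext j
  show (fourier 1 ((θ j : ℝ) : UnitAddCircle) : ℂ) = _
  rw [fourier_coe_apply]
  congr 1
  push_cast
  ring

/-- Weak convergence in the form used: for `ψ : ℂ → ℝ` continuous. -/
theorem weak {n : ℕ} (F : MvPolynomial (Fin n) ℤ) (ψ : ℂ → ℝ) (hψ : Continuous ψ) :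
    Tendsto (fun a : ℕ => ∫ s in (0 : ℝ)..1, ψ (val F fun i => (a : ℝ) ^ (i : ℕ) * s)) atTop
      (𝓝 (∫ θ in cube n, ψ (val F θ))) := by
  have hc : Continuous fun x : Fin n → UnitAddCircle => ((ψ (valT F x) : ℝ) : ℂ) :=
    Complex.continuous_ofReal.comp (hψ.comp (valT_cont F))
  have h := weak_torus (n := n) ⟨fun x => ((ψ (valT F x) : ℝ) : ℂ), hc⟩
  simp only [ContinuousMap.coe_mk] at h
  rw [int_cube] at h
  have e1 : ∀ a : ℕ, ∫ s in (0 : ℝ)..1,
      ((ψ (valT F fun i => (((a : ℝ) ^ (i : ℕ) * s : ℝ) : UnitAddCircle)) : ℝ) : ℂ) =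
      ((∫ s in (0 : ℝ)..1, ψ (val F fun i => (a : ℝ) ^ (i : ℕ) * s) : ℝ) : ℂ) := by
    intro a
    rw [← intervalIntegral.integral_ofReal]
    refine intervalIntegral.integral_congr fun s _ => ?_
    show ((ψ (valT F fun i => (((a : ℝ) ^ (i : ℕ) * s : ℝ) : UnitAddCircle)) : ℝ) : ℂ) = _
    rw [valT_coe]
  have e2 : ∫ θ in cube n, ((ψ (valT F fun i => (θ i : UnitAddCircle)) : ℝ) : ℂ) =
      ((∫ θ in cube n, ψ (val F θ) : ℝ) : ℂ) := by
    rw [← integral_complex_ofReal]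
    refine integral_congr_ae (Filter.Eventually.of_forall fun θ => ?_)
    show ((ψ (valT F fun i => (θ i : UnitAddCircle)) : ℝ) : ℂ) = _
    rw [valT_coe]
  rw [e2] at h
  simp only [e1] at h
  have h3 := (Complex.continuous_re.tendsto _).comp h
  simpa [Function.comp_def] using h3

end Pool.Agent.Lib.MP_7ab245_nt.NV
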